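import Pool.Agent.RED5.SecA5

/-!
# Moves common to two types
-/

set_option autoImplicit false

namespace RED

open AFn IAQ

namespace Sol

variable {n : ℕ} {G K : Type*} [Group G] [Group K]
  {E : Type*} [MulAction (MulAut (FreeGroup (Fin n))) E] {f : G →* K} {I : Finset (Fin n)}
  {gb : Fin n → K} {p : E → Fin n → G} {In : E → Prop} {l : ℕ}
  {τ : Finset (Fin n) → Fin n → G} {x0 : E}

private theorem cm5_pres {j e : Fin n} (hje : j ≠ e) {Q : Finset (Fin n)} (hj : j ∉ Q)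
    (he : e ∉ Q) {w : FreeGroup (Fin n)} (hw : w ∈ fsub Q) : Pres e (R j w) := by
  refine Mv_pres (Ne.symm hje) (R_mem_Mv j w) ?_
  rw [R_of_self, kill_eq hw hj, map_mul, kill_of_ne hje, kill_eq hw he]

private theorem cm5_R_mem {Q : Finset (Fin n)} {j : Fin n} (hj : j ∉ I)
    {w : FreeGroup (Fin n)} (hw : w ∈ fsub Q) : R j w ∈ MQ I Q :=
  Subgroup.mem_sup_right (Subgroup.subset_closure ⟨j, hj, w, hw, rfl⟩)

private theorem cm5_two {Q Q' : Finset (Fin n)} (hc : Q.card = l) (hc' : Q'.card = l)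
    (hI : Lg I l) : ∃ e ∈ I \ (Q ∪ Q'), ∃ i ∈ I \ (Q ∪ Q'), e ≠ i := by
  have h1 : 1 < (I \ (Q ∪ Q')).card := by
    have h2 : I.card - (Q ∪ Q').card ≤ (I \ (Q ∪ Q')).card :=
      Finset.le_card_sdiff (Q ∪ Q') I
    have h3 : (Q ∪ Q').card ≤ Q.card + Q'.card := Finset.card_union_le Q Q'
    have h4 := hI.2
    omega
  exact Finset.one_lt_card.1 h1

private theorem cm5_ind (hB : Bs f I gb p In l τ x0) {Q Q' : Finset (Fin n)} (hQ : Q ⊆ I)
    (hQ' : Q' ⊆ I) (hc : Q.card = l) (hc' : Q'.card = l) {y : E}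
    (hy : In y) (hF : Full f Q (p y)) (hF' : Full f Q' (p y)) {k : Fin n → G}
    (hk : ∀ a, f (k a) = gb a) (S : Finset (Fin n)) : (∀ a ∈ S, a ∉ I) →
    ∃ θ ∈ MQ I Q, ∃ θ' ∈ MQ I Q', θ • y = θ' • y ∧ act θ (p y) = upd (p y) S k := by
  classical
  induction S using Finset.induction_on with
  | empty =>
    intro _
    refine ⟨1, Subgroup.one_mem _, 1, Subgroup.one_mem _, rfl, ?_⟩
    rw [act_one]
    funext x
    rw [upd_of_notMem (Finset.notMem_empty x)]
  | insert j S hjS ih =>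
    intro hS
    obtain ⟨θ, hθ, θ', hθ', he, ha⟩ := ih (fun a haS => hS a (Finset.mem_insert_of_mem haS))
    have hj : j ∉ I := hS j (Finset.mem_insert_self j S)
    have hSI : ∀ a ∈ S, a ∉ I := fun a haS => hS a (Finset.mem_insert_of_mem haS)
    have hp : p (θ • y) = upd (p y) S k := by rw [hB.fb.ps, ha]
    have hf1 : ∀ a, f (p (θ • y) a) = gb a := by
      intro a
      rw [hp]
      by_cases haS : a ∈ S
      · rw [upd_of_mem haS, hk a]
      · rw [upd_of_notMem haS, (hB.fb.fb y hy).1 a]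
    have hin : In (θ • y) := (in_of_act hB.fb hy hf1).2
    have hI1 : ∀ a ∈ I, p y a = p (θ • y) a := by
      intro a haI
      rw [hp, upd_of_notMem (fun haS => hSI a haS haI)]
    have hF1 : Full f Q (p (θ • y)) := Full_congr (fun a haQ => hI1 a (hQ haQ)) hF
    have hF2 : Full f Q' (p (θ • y)) := Full_congr (fun a haQ => hI1 a (hQ' haQ)) hF'
    obtain ⟨w, hw, -, hw2⟩ := R_exists hQ hB.fb.one hF1 hj (hf1 j) (hk j)
    obtain ⟨w', hw', -, hw2'⟩ := R_exists hQ' hB.fb.one hF2 hj (hf1 j) (hk j)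
    obtain ⟨e, heY, i, hiY, hei⟩ := cm5_two hc hc' hB.lg
    rw [Finset.mem_sdiff, Finset.mem_union, not_or] at heY hiY
    have hje : j ≠ e := fun h => hj (h ▸ heY.1)
    have hij : i ≠ j := fun h => hj (h ▸ hiY.1)
    have hgen : Gen (p (θ • y)) {i, e}ᶜ := by
      refine full_gen hB.fb.gen hf1 hF1 ?_
      intro x hx
      rw [Finset.mem_compl, Finset.mem_insert, Finset.mem_singleton, not_or]
      rw [Finset.mem_union, Finset.mem_compl] at hx
      constructor
      · intro hxi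
        rcases hx with hx | hx
        · exact hx (hxi ▸ hiY.1)
        · exact hiY.2.1 (hxi ▸ hx)
      · intro hxe
        rcases hx with hx | hx
        · exact hx (hxe ▸ heY.1)
        · exact heY.2.1 (hxe ▸ hx)
    have hq : R j w • θ • y = R j w' • θ • y :=
      hB.fb.qq j e i (R j w) (R j w') (θ • y) hin hje (Ne.symm hei) hij hgen
        (R_mem_Mv j w) (R_mem_Mv j w') (cm5_pres hje (fun h => hj (hQ h)) heY.2.1 hw)
        (cm5_pres hje (fun h => hj (hQ' h)) heY.2.2 hw') (by rw [hw2, hw2'])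
    refine ⟨R j w * θ, Subgroup.mul_mem _ (cm5_R_mem hj hw) hθ, R j w' * θ',
      Subgroup.mul_mem _ (cm5_R_mem hj hw') hθ', ?_, ?_⟩
    · rw [mul_smul, mul_smul, hq, he]
    · rw [act_mul, ha, ← hp, hw2, hp]
      funext x
      by_cases hx : x = j
      · rw [hx, Function.update_self, upd_of_mem (Finset.mem_insert_self j S)]
      · rw [Function.update_of_ne hx]
        by_cases hxS : x ∈ S
        · rw [upd_of_mem hxS, upd_of_mem (Finset.mem_insert_of_mem hxS)]
        · rw [upd_of_notMem hxS, upd_of_notMem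
            (fun h => (Finset.mem_insert.1 h).elim hx hxS)]

/-- two sets of letters: the moves common to both types -/
theorem common_move (hB : Bs f I gb p In l τ x0) {Q Q' : Finset (Fin n)} (hQ : Q ⊆ I)
    (hQ' : Q' ⊆ I) (hc : Q.card = l) (hc' : Q'.card = l) (hd : Disjoint Q Q') {y : E}
    (hy : In y) (hF : Full f Q (p y)) (hF' : Full f Q' (p y)) {k : Fin n → G}
    (hk : ∀ a, f (k a) = gb a) (hkQ : ∀ a ∈ Q, k a = p y a) (hkQ' : ∀ a ∈ Q', k a = p y a) :
    ∃ θ ∈ MQ I Q, ∃ θ' ∈ MQ I Q', θ • y = θ' • y ∧ act θ (p y) = k := by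
  have _ := hd
  obtain ⟨θ, hθ, θ', hθ', he, ha⟩ := cm5_ind hB hQ hQ' hc hc' hy hF hF' hk Iᶜ
    (fun a h => Finset.mem_compl.1 h)
  have hp : p (θ • y) = upd (p y) Iᶜ k := by rw [hB.fb.ps, ha]
  have hf1 : ∀ a, f (p (θ • y) a) = gb a := by
    intro a
    rw [hp]
    by_cases haS : a ∈ Iᶜ
    · rw [upd_of_mem haS, hk a]
    · rw [upd_of_notMem haS, (hB.fb.fb y hy).1 a]
  have hI1 : ∀ a ∈ I, p y a = p (θ • y) a := by
    intro a haI
    rw [hp, upd_of_notMem (fun h => Finset.mem_compl.1 h haI)]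
  have hF1 : Full f Q (p (θ • y)) := Full_congr (fun a haQ => hI1 a (hQ haQ)) hF
  have hgen : Gen (p (θ • y)) (I \ (Q ∪ Q'))ᶜ := by
    refine full_gen hB.fb.gen hf1 hF1 ?_
    intro x hx
    rw [Finset.mem_compl, Finset.mem_sdiff, Finset.mem_union]
    rw [Finset.mem_union, Finset.mem_compl] at hx
    rintro ⟨h1, h2⟩
    rcases hx with hx | hx
    · exact hx h1
    · exact h2 (Or.inl hx)
  obtain ⟨φ, hφ, hφ2⟩ := exists_upd hgen k
  have hφQ : φ ∈ MQ I Q := by
    refine Subgroup.mem_sup_left (MvS_mono ?_ hφ)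
    exact Finset.sdiff_subset_sdiff (Finset.Subset.refl I) Finset.subset_union_left
  have hφQ' : φ ∈ MQ I Q' := by
    refine Subgroup.mem_sup_left (MvS_mono ?_ hφ)
    exact Finset.sdiff_subset_sdiff (Finset.Subset.refl I) Finset.subset_union_right
  refine ⟨φ * θ, Subgroup.mul_mem _ hφQ hθ, φ * θ', Subgroup.mul_mem _ hφQ' hθ', ?_, ?_⟩
  · rw [mul_smul, mul_smul, he]
  · rw [act_mul, ← hB.fb.ps, hφ2, hp]
    funext x
    by_cases hxY : x ∈ I \ (Q ∪ Q')
    · rw [upd_of_mem hxY]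
    · rw [upd_of_notMem hxY]
      by_cases hxI : x ∈ I
      · rw [upd_of_notMem (fun h => Finset.mem_compl.1 h hxI)]
        rw [Finset.mem_sdiff, Finset.mem_union, not_and, not_not] at hxY
        rcases hxY hxI with h | h
        · exact (hkQ x h).symm
        · exact (hkQ' x h).symm
      · rw [upd_of_mem (Finset.mem_compl.2 hxI)]

end Sol

end RED
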