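import Pool.Agent.RED5.D5

/-!
# The layers of a chain of normal subgroups
-/

set_option autoImplicit false

namespace RED

open AFn IAQ

namespace Sol

variable {G : Type*} [Group G]

/-- the map between two quotients -/
def qm (A B : Subgroup G) [A.Normal] [B.Normal] (h : A ≤ B) : G ⧸ A →* G ⧸ B :=
  QuotientGroup.map A B (MonoidHom.id G) h

theorem qm_mk (A B : Subgroup G) [A.Normal] [B.Normal] (h : A ≤ B) (x : G) :
    qm A B h (QuotientGroup.mk' A x) = QuotientGroup.mk' B x := rfl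

theorem qm_surj (A B : Subgroup G) [A.Normal] [B.Normal] (h : A ≤ B) :
    Function.Surjective (qm A B h) := by
  intro y
  obtain ⟨x, rfl⟩ := QuotientGroup.mk'_surjective B y
  exact ⟨QuotientGroup.mk' A x, qm_mk A B h x⟩

private theorem qm_mem (A B : Subgroup G) [A.Normal] [B.Normal] (h : A ≤ B) {x : G}
    (hx : qm A B h (QuotientGroup.mk' A x) = 1) : x ∈ B := by
  rw [qm_mk] at hx
  exact (QuotientGroup.eq_one_iff x).1 hx

open scoped commutatorElement in
theorem qm_solv (A B : Subgroup G) [A.Normal] [B.Normal] (h : A ≤ B) (hc : ⁅B, B⁆ ≤ A) :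
    Group.IsSolvable (qm A B h).ker := by
  have hcomm : ∀ a b : (qm A B h).ker, a * b = b * a := by
    rintro ⟨a, ha⟩ ⟨b, hb⟩
    obtain ⟨x, rfl⟩ := QuotientGroup.mk'_surjective A a
    obtain ⟨y, rfl⟩ := QuotientGroup.mk'_surjective A b
    have hx := qm_mem A B h (MonoidHom.mem_ker.1 ha)
    have hy := qm_mem A B h (MonoidHom.mem_ker.1 hb)
    have h1 : ⁅x, y⁆ ∈ A := hc (Subgroup.commutator_mem_commutator hx hy)
    have h2 : QuotientGroup.mk' A ⁅x, y⁆ = 1 := (QuotientGroup.eq_one_iff _).2 h1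
    rw [map_commutatorElement, commutatorElement_eq_one_iff_mul_comm] at h2
    exact Subtype.ext h2
  exact Group.isSolvable_of_comm hcomm

theorem qm_KB (A B : Subgroup G) [A.Normal] [B.Normal] (h : A ≤ B) {l : ℕ}
    (hc : ∀ S : Finset G, (∀ x ∈ S, x ∈ B) → ∃ M : Finset G, M ⊆ S ∧ M.card ≤ l ∧
      ∀ x ∈ S, x ∈ Subgroup.closure (M : Set G) ⊔ A) : KB (qm A B h) l := by
  classical
  intro S hS
  have hout : ∀ x : G ⧸ A, QuotientGroup.mk' A (Quotient.out x) = x := fun x =>
    QuotientGroup.out_eq' x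
  obtain ⟨M, hM1, hM2, hM3⟩ := hc (S.image Quotient.out) (by
    intro x hx
    obtain ⟨y, hy, rfl⟩ := Finset.mem_image.1 hx
    refine qm_mem A B h ?_
    rw [hout]
    exact hS y hy)
  refine ⟨M.image (QuotientGroup.mk' A), ?_, Finset.card_image_le.trans hM2, ?_⟩
  · intro x hx
    obtain ⟨y, hy, rfl⟩ := Finset.mem_image.1 hx
    obtain ⟨z, hz, rfl⟩ := Finset.mem_image.1 (hM1 hy)
    rw [hout]
    exact hz
  · intro x hx
    have h1 := hM3 _ (Finset.mem_image_of_mem _ hx)
    have h2 := Subgroup.mem_map_of_mem (QuotientGroup.mk' A) h1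
    rw [hout, Subgroup.map_sup, MonoidHom.map_closure, QuotientGroup.map_mk'_self,
      sup_bot_eq] at h2
    rw [Finset.coe_image]
    exact h2

end Sol

end RED
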