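import Pool.Agent.RED5.Std5
import Pool.Agent.RED5.Lay5
import Pool.Agent.RED4.Rad2
import Pool.Agent.RED4.Rad3
import Pool.Agent.RED4.Final6
import Pool.Agent.RED4.Result4

/-!
# Chains of normal subgroups
-/

set_option autoImplicit false

namespace RED

open AFn IAQ

namespace Sol

variable {n : ℕ} {G : Type*} [Group G]

/-- the layer between `A` and `B` is abelian or has short generating sets -/
def LB (A B : Subgroup G) (l : ℕ) : Prop :=
  ⁅B, B⁆ ≤ A ∨ ∀ S : Finset G, (∀ x ∈ S, x ∈ B) → ∃ M : Finset G, M ⊆ S ∧ M.card ≤ l ∧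
      ∀ x ∈ S, x ∈ Subgroup.closure (M : Set G) ⊔ A

/-- the stabilisers of the standard tuples are generated by one-letter moves -/
def PrG (I : Finset (Fin n)) (H : Type*) [Group H] : Prop :=
  ∀ g : Fin n → H, (∀ i ∈ I, g i = 1) → Gen g Iᶜ → Gam g ≤ NN g

/-- the tuple can be brought to standard form -/
def StT (I : Finset (Fin n)) {H : Type*} [Group H] (g : Fin n → H) : Prop :=
  ∃ φ : MulAut (FreeGroup (Fin n)), Gen (act φ g) Iᶜ ∧ ∀ i ∈ I, act φ g i = 1

theorem gen_map5 {H K : Type*} [Group H] [Group K] {c : H →* K} (hc : Function.Surjective c)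
    {g : Fin n → H} {S : Finset (Fin n)} (hg : Gen g S) : Gen (fun x => c (g x)) S := by
  intro k
  obtain ⟨y, rfl⟩ := hc k
  obtain ⟨w, hw, hwy⟩ := hg y
  exact ⟨w, hw, by rw [rad_ev, hwy]⟩

theorem layer_gam [Finite G] (A B : Subgroup G) [A.Normal] [B.Normal] (h : A ≤ B) {l : ℕ}
    {I : Finset (Fin n)} (hI : Lg I l) (hc : LB A B l) (hB : PrG I (G ⧸ B)) :
    PrG I (G ⧸ A) := by
  intro g h1 hg
  rcases hc with hc | hc
  · exact rad_gam hI.1 hB (Nat.card (qm A B h).ker) (G ⧸ A) (qm A B h) (qm_surj A B h)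
      (qm_solv A B h hc) le_rfl g h1 hg
  · refine step5 (qm_surj A B h) (qm_KB A B h hc) hI h1 hg (hB _ ?_ ?_)
    · intro i hi
      rw [h1 i hi, map_one]
    · exact gen_map5 (qm_surj A B h) hg

theorem rb_map5 {H K : Type*} [Group H] [Group K] {c : H →* K} (hc : Function.Surjective c)
    {r : ℕ} (h : RB H r) : RB K r := by
  classical
  obtain ⟨S, hS, hcl⟩ := h
  refine ⟨S.image c, (Finset.card_image_le).trans hS, ?_⟩
  rw [Finset.coe_image, ← MonoidHom.map_closure, hcl]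
  exact Subgroup.map_top_of_surjective _ hc

theorem layer_std [Finite G] (A B : Subgroup G) [A.Normal] [B.Normal] (h : A ≤ B) {l : ℕ}
    {I : Finset (Fin n)} (hI : Lg I l) (hc : LB A B l) (hr : RB G Iᶜ.card) {g : Fin n → G}
    (hg : Gen g Finset.univ) (hB : StT I (fun x => QuotientGroup.mk' B (g x))) :
    StT I (fun x => QuotientGroup.mk' A (g x)) := by
  obtain ⟨φ1, h2, h3⟩ := hB
  obtain ⟨k, hk⟩ : ∃ k, k = act φ1 (fun x => QuotientGroup.mk' A (g x)) := ⟨_, rfl⟩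
  have hkB : (fun x => qm A B h (k x)) = act φ1 (fun x => QuotientGroup.mk' B (g x)) := by
    rw [hk]
    exact (gac_act_map (qm A B h) φ1 (fun x => QuotientGroup.mk' A (g x))).symm
  have hku : Gen k Finset.univ := by
    rw [hk]
    exact gac_gen_act φ1 (gen_map5 (QuotientGroup.mk'_surjective A) hg)
  have hk1 : ∀ i ∈ I, qm A B h (k i) = 1 := by
    intro i hi
    have := congrFun hkB i
    rw [this]
    exact h3 i hi
  have hk2 : Gen (fun x => qm A B h (k x)) Iᶜ := by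
    rw [hkB]
    exact h2
  have hr' : RB (G ⧸ A) Iᶜ.card := rb_map5 (QuotientGroup.mk'_surjective A) hr
  obtain ⟨φ2, h4, h5⟩ : ∃ φ : MulAut (FreeGroup (Fin n)), Gen (act φ k) Iᶜ ∧
      ∀ i ∈ I, act φ k i = 1 := by
    rcases hc with hc | hc
    · exact rad_std hI.1 (Nat.card (qm A B h).ker) (G ⧸ A) (qm A B h) (qm_surj A B h)
        (qm_solv A B h hc) le_rfl hr' k hku hk1 hk2
    · exact std5 (qm_surj A B h) (qm_KB A B h hc) hI hr' hku hk1 hk2
  exact ⟨φ2 * φ1, by rw [act_mul, ← hk]; exact h4, by rw [act_mul, ← hk]; exact h5⟩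

theorem chain_gam [Finite G] (N : ℕ → Subgroup G) [∀ i, (N i).Normal] {l : ℕ}
    {I : Finset (Fin n)} (hI : Lg I l) (t : ℕ) (hN : ∀ i < t, N i ≤ N (i + 1))
    (hc : ∀ i < t, LB (N i) (N (i + 1)) l) (hB : PrG I (G ⧸ N t)) : PrG I (G ⧸ N 0) := by
  induction t with
  | zero => exact hB
  | succ t ih =>
    exact ih (fun i hi => hN i (by omega)) (fun i hi => hc i (by omega))
      (layer_gam (N t) (N (t + 1)) (hN t (by omega)) hI (hc t (by omega)) hB)

theorem chain_std [Finite G] (N : ℕ → Subgroup G) [∀ i, (N i).Normal] {l : ℕ}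
    {I : Finset (Fin n)} (hI : Lg I l) (hr : RB G Iᶜ.card) {g : Fin n → G}
    (hg : Gen g Finset.univ) (t : ℕ) (hN : ∀ i < t, N i ≤ N (i + 1))
    (hc : ∀ i < t, LB (N i) (N (i + 1)) l)
    (hB : StT I (fun x => QuotientGroup.mk' (N t) (g x))) :
    StT I (fun x => QuotientGroup.mk' (N 0) (g x)) := by
  induction t with
  | zero => exact hB
  | succ t ih =>
    exact ih (fun i hi => hN i (by omega)) (fun i hi => hc i (by omega))
      (layer_std (N t) (N (t + 1)) (hN t (by omega)) hI (hc t (by omega)) hr hg hB)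

end Sol

theorem final_chain {n m r s d l t : ℕ} {G : Type*} [Group G] [Finite G] (N : ℕ → Subgroup G)
    [∀ i, (N i).Normal] (h0 : N 0 = ⊥) (hN : ∀ i < t, N i ≤ N (i + 1))
    (hfac : ∀ i < t, Sol.LB (N i) (N (i + 1)) l) (hr : RB G r) (hs : RB (G ⧸ N t) s)
    (hd : MB (G ⧸ N t) d)
    (hsr : s ≤ r) (g : Fin n → G) (hg : Function.Surjective (ev g))
    (Hin : Subgroup (MulAut (FreeGroup (Fin n))))
    (ρ : Hin →* Matrix.GeneralLinearGroup (Fin m) ℤ)
    (hn : r + 5 ≤ n) (hl : r + 3 * l + 2 ≤ n) (hn2 : 4 * s + 2 * d + 5 ≤ n)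
    (hf : Hin.FiniteIndex) (hm : m + 2 ≤ n)
    (hm2 : m ≤ 2 ^ (n - 2 - r) + 1) (hΓ : Gam g ≤ Hin) : Finite ρ.range := by
  classical
  have hgu : Gen g Finset.univ := gen_univ6 hg
  have hgK : Function.Surjective (ev (fun x => QuotientGroup.mk' (N t) (g x))) := by
    intro y
    obtain ⟨x, rfl⟩ := QuotientGroup.mk'_surjective (N t) y
    obtain ⟨w, rfl⟩ := hg x
    exact ⟨w, Sol.rad_ev (QuotientGroup.mk' (N t)) g w⟩
  obtain ⟨φ0, I0, hI0, hgen0, h10⟩ := exists_std2 hs hd hn2 _ hgK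
  -- a set of `r` letters containing the complement of `I0`
  obtain ⟨J, hJ1, hJ2⟩ := Finset.exists_superset_card_eq (s := I0ᶜ) (n := r)
    (hI0.trans hsr) (by rw [Fintype.card_fin]; omega)
  have hJc : (Jᶜ : Finset (Fin n)).card = n - r := by
    rw [Finset.card_compl, Fintype.card_fin, hJ2]
  have hJI : (Jᶜ : Finset (Fin n)) ⊆ I0 := by
    intro x hx
    by_contra h
    exact (Finset.mem_compl.1 hx) (hJ1 (Finset.mem_compl.2 h))
  have hI : 5 ≤ (Jᶜ : Finset (Fin n)).card := by omega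
  have hLg : Sol.Lg (Jᶜ : Finset (Fin n)) l := ⟨hI, by omega⟩
  have hr' : RB G (Jᶜᶜ : Finset (Fin n)).card := by rw [compl_compl, hJ2]; exact hr
  -- the tuples of the quotient by `N t`
  have hPt : Sol.PrG (Jᶜ : Finset (Fin n)) (G ⧸ N t) := by
    intro k hk1 hk2
    have hku : Function.Surjective (ev k) := fun y => by
      obtain ⟨w, -, hw⟩ := hk2 y
      exact ⟨w, hw⟩
    exact (gen_all2 hs hd hn2 k hku).trans
      (NS_std (Finset.card_pos.1 (by omega)) hk2 hk1)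
  have hP0 := Sol.chain_gam N hLg t hN hfac hPt
  have hSt : Sol.StT (Jᶜ : Finset (Fin n)) (fun x => QuotientGroup.mk' (N t) (g x)) :=
    ⟨φ0, by rw [compl_compl]; exact Gen_mono hJ1 hgen0, fun i hi => h10 i (hJI hi)⟩
  obtain ⟨φ1, h1, h2⟩ := Sol.chain_std N hLg hr' hgu t hN hfac hSt
  -- the quotient by `N 0 = ⊥`
  have hker : (QuotientGroup.mk' (N 0)).ker = ⊥ := by rw [QuotientGroup.ker_mk', h0]
  have hsol : Group.IsSolvable (QuotientGroup.mk' (N 0)).ker := by
    have : Subsingleton (QuotientGroup.mk' (N 0)).ker := by rw [hker]; infer_instance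
    infer_instance
  have hg1u : Gen (act φ1 g) Finset.univ := Sol.gac_gen_act φ1 hgu
  have hcg1 : (fun x => QuotientGroup.mk' (N 0) (act φ1 g x)) =
      act φ1 (fun x => QuotientGroup.mk' (N 0) (g x)) := (Sol.gac_act_map _ _ _).symm
  obtain ⟨φ2, h3, h4⟩ := Sol.rad_std hI (Nat.card (QuotientGroup.mk' (N 0)).ker) G
    (QuotientGroup.mk' (N 0)) (QuotientGroup.mk'_surjective _) hsol le_rfl hr' (act φ1 g) hg1u
    (fun i hi => by
      have := congrFun hcg1 i
      rw [this]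
      exact h2 i hi)
    (by rw [hcg1]; exact h1)
  have hN' : Gam (act φ2 (act φ1 g)) ≤ NN (act φ2 (act φ1 g)) :=
    Sol.rad_gam hI hP0 (Nat.card (QuotientGroup.mk' (N 0)).ker) G
      (QuotientGroup.mk' (N 0)) (QuotientGroup.mk'_surjective _) hsol le_rfl _ h4 h3
  refine final6_std g Hin ρ Jᶜ hI hf hm ?_ hΓ (φ2 * φ1) ?_ ?_
  · have : (Jᶜ : Finset (Fin n)).card - 2 = n - 2 - r := by omega
    rw [this]
    exact hm2
  · intro i hi
    rw [act_mul]
    exact h4 i hi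
  · rw [act_mul]
    exact hN'

theorem final_chain' {n m r s d l t : ℕ} {G : Type*} [Group G] [Finite G]
    (N : ℕ → Subgroup G)
    [∀ i, (N i).Normal] (h0 : N 0 = ⊥) (hN : ∀ i < t, N i ≤ N (i + 1))
    (hfac : ∀ i < t, Sol.LB (N i) (N (i + 1)) l) (hr : RB G r) (hs : RB (G ⧸ N t) s)
    (hd : MB (G ⧸ N t) d) (g : Fin n → G) (hg : Function.Surjective (ev g))
    (Hin : Subgroup (MulAut (FreeGroup (Fin n))))
    (ρ : Hin →* Matrix.GeneralLinearGroup (Fin m) ℤ)
    (hn : r + 5 ≤ n) (hl : r + 3 * l + 2 ≤ n) (hn2 : 4 * s + 2 * d + 5 ≤ n)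
    (hf : Hin.FiniteIndex) (hm : m + 2 ≤ n)
    (hm2 : m ≤ 2 ^ (n - 2 - r) + 1) (hΓ : Gam g ≤ Hin) : Finite ρ.range :=
  final_chain (s := min s r) N h0 hN hfac hr (rb_min6 hs (rb_quot6 _ hr)) hd
    (min_le_right _ _) g hg Hin ρ hn hl (by have := min_le_left s r; omega) hf hm hm2 hΓ

end RED
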