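import Pool.Agent.RED4.Defs4
import Pool.Agent.RED4.FactA
import Pool.Agent.RED4.FactB
import Pool.Agent.RED.Rank2

/-!
# Kernels with short generating sets: definitions
-/

set_option autoImplicit false

namespace RED

open AFn IAQ

namespace Sol

variable {n : ℕ} {G K : Type*} [Group G] [Group K]

/-- every finite set of elements of the kernel contains at most `l` elements generating it -/
def KB (f : G →* K) (l : ℕ) : Prop :=
  ∀ S : Finset G, (∀ x ∈ S, f x = 1) →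
    ∃ M : Finset G, M ⊆ S ∧ M.card ≤ l ∧ ∀ x ∈ S, x ∈ Subgroup.closure (M : Set G)

/-- `I` is large compared with `l` -/
def Lg (I : Finset (Fin n)) (l : ℕ) : Prop := 5 ≤ I.card ∧ 3 * l + 2 ≤ I.card

/-- the values of the letters of `Q` generate the kernel -/
def Full (f : G →* K) (Q : Finset (Fin n)) (h : Fin n → G) : Prop :=
  ∀ x : G, f x = 1 → x ∈ Subgroup.closure (h '' (Q : Set (Fin n)))

/-- two facts about the tuples over `gb` -/
structure HB (f : G →* K) (I : Finset (Fin n)) (gb : Fin n → K) : Prop where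
  red : ∀ h, Fb f gb h → ∀ a b : Fin n, ∃ e ∈ I, e ≠ a ∧ e ≠ b ∧ Gen h {e}ᶜ
  hl : ∀ h, Fb f gb h → HL2p h

/-- points over the tuples over `gb` -/
structure FB {E : Type*} [MulAction (MulAut (FreeGroup (Fin n))) E] (f : G →* K)
    (I : Finset (Fin n)) (gb : Fin n → K) (p : E → Fin n → G) (In : E → Prop) : Prop where
  one : ∀ i ∈ I, gb i = 1
  gen : Gen gb Iᶜ
  ps : ∀ (θ : MulAut (FreeGroup (Fin n))) (x : E), p (θ • x) = act θ (p x)
  fb : ∀ x, In x → Fb f gb (p x)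
  inn : ∀ θ ∈ Gam gb, ∀ x, In x → In (θ • x)
  red : ∀ (Y : Finset (Fin n)) (θ θ' : MulAut (FreeGroup (Fin n))) (x : E), In x →
    Gen (p x) Yᶜ → θ ∈ MvS Y → θ' ∈ MvS Y → act θ (p x) = act θ' (p x) → θ • x = θ' • x
  qq : ∀ (j e i : Fin n) (θ θ' : MulAut (FreeGroup (Fin n))) (x : E), In x → j ≠ e → i ≠ e →
    i ≠ j → Gen (p x) {i, e}ᶜ → θ ∈ Mv j → θ' ∈ Mv j → Pres e θ → Pres e θ' →
    act θ (p x) = act θ' (p x) → θ • x = θ' • x

/-- the moves of the letters of `I` outside of `Q` and the moves of the letters outside of `I`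
with words in the letters of `Q` -/
def MQ (I Q : Finset (Fin n)) : Subgroup (MulAut (FreeGroup (Fin n))) :=
  MvS (I \ Q) ⊔ Subgroup.closure {φ | ∃ j, j ∉ I ∧ ∃ w ∈ fsub Q, φ = R j w}

/-- `z` is reached from `x0` by a path of type `Q` -/
def Pt {E : Type*} [MulAction (MulAut (FreeGroup (Fin n))) E] (f : G →* K)
    (I : Finset (Fin n)) (gb : Fin n → K) (p : E → Fin n → G) (In : E → Prop)
    (τ : Finset (Fin n) → Fin n → G) (x0 : E) (Q : Finset (Fin n)) (z : E) : Prop :=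
  ∃ ψ ∈ MvS Q, ∃ θ ∈ MQ I Q, ∃ ψ' ∈ MvS Q, z = ψ' • θ • ψ • x0 ∧
    p (ψ • x0) = upd (p x0) Q (τ Q) ∧ (∀ a, f (p (θ • ψ • x0) a) = gb a) ∧ In z ∧ Gen (p z) Qᶜ

/-- the data at the base point -/
structure Bs {E : Type*} [MulAction (MulAut (FreeGroup (Fin n))) E] (f : G →* K)
    (I : Finset (Fin n)) (gb : Fin n → K) (p : E → Fin n → G) (In : E → Prop) (l : ℕ)
    (τ : Finset (Fin n) → Fin n → G) (x0 : E) : Prop where
  fb : FB f I gb p In
  kb : KB f l
  lg : Lg I l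
  in0 : In x0
  one0 : ∀ i ∈ I, p x0 i = 1
  tau : ∀ Q a, f (τ Q a) = 1
  full : ∀ Q, Q.card = l → Full f Q (τ Q)

end Sol

end RED
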