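import Pool.Agent.RED.Rank2

/-!
# Lifting generating tuples
-/

set_option autoImplicit false

namespace RED

open AFn IAQ

namespace Sol

section Ga5

variable {ι G K : Type*} [Group G] [Group K]

/-- the lifts of `y` which generate exactly `D` -/
private def Vs (f : G →* K) (y : ι → K) (D : Subgroup G) : Type _ :=
  {v : ι → G // (∀ i, f (v i) = y i) ∧ Subgroup.closure (Set.range v) = D}

/-- the lifts of `y` inside `D` -/
private def Us (f : G →* K) (y : ι → K) (D : Subgroup G) : Type _ :=
  {v : ι → G // (∀ i, f (v i) = y i) ∧ ∀ i, v i ∈ D}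

private def usEquiv (f : G →* K) (y : ι → K) (D : Subgroup G) :
    Us f y D ≃ Σ D' : {D' : Subgroup G // D' ≤ D}, Vs f y D'.1 where
  toFun v := ⟨⟨Subgroup.closure (Set.range v.1), by
    rw [Subgroup.closure_le]
    rintro _ ⟨i, rfl⟩
    exact v.2.2 i⟩, ⟨v.1, v.2.1, rfl⟩⟩
  invFun s := ⟨s.2.1, s.2.2.1, fun i => s.1.2 ((le_of_eq s.2.2.2)
    (Subgroup.subset_closure ⟨i, rfl⟩))⟩
  left_inv v := rfl
  right_inv := by
    rintro ⟨⟨D', hD'⟩, ⟨v, h1, h2⟩⟩
    have h3 : Subgroup.closure (Set.range v) = D' := h2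
    subst h3
    rfl

private theorem finVs [Finite ι] [Finite G] (f : G →* K) (y : ι → K) (D : Subgroup G) :
    Finite (Vs f y D) := Subtype.finite

/-- two tuples with lifts in `D` have the same number of lifts in `D` -/
private theorem us_card (f : G →* K) (y y' : ι → K) (D : Subgroup G)
    (hD : D.map f = ⊤) : Nat.card (Us f y D) = Nat.card (Us f y' D) := by
  have hex : ∀ k : K, ∃ a ∈ D, f a = k := by
    intro k
    have : k ∈ D.map f := by rw [hD]; exact trivial
    obtain ⟨a, ha, h⟩ := this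
    exact ⟨a, ha, h⟩
  choose w hw1 hw2 using hex
  refine Nat.card_congr ⟨fun u => ⟨fun x => w (y' x) * ((w (y x))⁻¹ * u.1 x), fun x => ?_,
      fun x => ?_⟩,
    fun v => ⟨fun x => w (y x) * ((w (y' x))⁻¹ * v.1 x), fun x => ?_, fun x => ?_⟩,
    fun u => ?_, fun v => ?_⟩
  · rw [map_mul, map_mul, map_inv, hw2, hw2, u.2.1 x, inv_mul_cancel, mul_one]
  · exact D.mul_mem (hw1 _) (D.mul_mem (D.inv_mem (hw1 _)) (u.2.2 x))
  · rw [map_mul, map_mul, map_inv, hw2, hw2, v.2.1 x, inv_mul_cancel, mul_one]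
  · exact D.mul_mem (hw1 _) (D.mul_mem (D.inv_mem (hw1 _)) (v.2.2 x))
  · apply Subtype.ext
    funext x
    simp
  · apply Subtype.ext
    funext x
    simp

/-- the number of lifts generating `D` does not depend on the generating tuple -/
private theorem vs_card [Finite ι] [Finite G] (f : G →* K) (y y' : ι → K)
    (hy : Subgroup.closure (Set.range y) = ⊤) (hy' : Subgroup.closure (Set.range y') = ⊤)
    (D : Subgroup G) : Nat.card (Vs f y D) = Nat.card (Vs f y' D) := by
  classical
  have : Fintype (Subgroup G) := Fintype.ofFinite _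
  induction D using WellFoundedLT.induction with
  | ind D ih =>
    by_cases hD : D.map f = ⊤
    · have hU := us_card f y y' D hD
      have h1 : ∀ z : ι → K, Nat.card (Us f z D) =
          ∑ a : {D' : Subgroup G // D' ≤ D}, Nat.card (Vs f z a.1) := by
        intro z
        have : ∀ a : {D' : Subgroup G // D' ≤ D}, Finite (Vs f z a.1) := fun a => finVs f z a.1
        rw [Nat.card_congr (usEquiv f z D), Nat.card_sigma]
      rw [h1, h1] at hU
      rw [← Finset.add_sum_erase Finset.univ _ (Finset.mem_univ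
          (⟨D, le_rfl⟩ : {D' : Subgroup G // D' ≤ D})),
        ← Finset.add_sum_erase Finset.univ (fun a : {D' : Subgroup G // D' ≤ D} =>
          Nat.card (Vs f y' a.1)) (Finset.mem_univ
          (⟨D, le_rfl⟩ : {D' : Subgroup G // D' ≤ D}))] at hU
      have h2 : ∑ a ∈ Finset.univ.erase (⟨D, le_rfl⟩ : {D' : Subgroup G // D' ≤ D}),
            Nat.card (Vs f y a.1) =
          ∑ a ∈ Finset.univ.erase (⟨D, le_rfl⟩ : {D' : Subgroup G // D' ≤ D}),
            Nat.card (Vs f y' a.1) := by
        refine Finset.sum_congr rfl (fun a ha => ?_)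
        refine ih a.1 (lt_of_le_of_ne a.2 (fun h => ?_))
        exact (Finset.mem_erase.1 ha).1 (Subtype.ext h)
      rw [h2] at hU
      exact Nat.add_right_cancel hU
    · have key : ∀ z : ι → K, Subgroup.closure (Set.range z) = ⊤ → Nat.card (Vs f z D) = 0 := by
        intro z hz
        have : IsEmpty (Vs f z D) := by
          refine ⟨fun v => hD ?_⟩
          rw [← v.2.2, MonoidHom.map_closure, ← Set.range_comp, ← hz]
          congr 1
          congr 1
          funext i
          exact v.2.1 i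
        exact Nat.card_of_isEmpty
      rw [key y hy, key y' hy']

end Ga5

/-- Gaschütz -/
theorem gaschutz5 {n : ℕ} {G K : Type*} [Group G] [Group K] [Finite G] {f : G →* K}
    (hsurj : Function.Surjective f) {S : Finset (Fin n)} {gb : Fin n → K}
    (hgb : Gen gb S) (hr : RB G S.card) :
    ∃ g : Fin n → G, (∀ x ∈ S, f (g x) = gb x) ∧ Gen g S := by
  classical
  obtain ⟨z, hz⟩ := exists_tau2 hr S rfl
  have hrange : ∀ {A : Type _} (t : Fin n → A), Set.range (fun x : S => t x) =
      t '' (S : Set (Fin n)) := by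
    intro A t
    ext a
    constructor
    · rintro ⟨x, rfl⟩
      exact ⟨x, x.2, rfl⟩
    · rintro ⟨x, hx, rfl⟩
      exact ⟨⟨x, hx⟩, rfl⟩
  have hrangeK : ∀ (t : Fin n → K), Set.range (fun x : S => t x) =
      t '' (S : Set (Fin n)) := by
    intro t
    ext a
    constructor
    · rintro ⟨x, rfl⟩
      exact ⟨x, x.2, rfl⟩
    · rintro ⟨x, hx, rfl⟩
      exact ⟨⟨x, hx⟩, rfl⟩
  have hzc : Subgroup.closure (Set.range (fun x : S => z x)) = ⊤ := by
    rw [hrange]
    exact (Gen_iff_closure z S).1 hz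
  have hy : Subgroup.closure (Set.range (fun x : S => gb x)) = ⊤ := by
    rw [hrangeK]
    exact (Gen_iff_closure gb S).1 hgb
  have hy' : Subgroup.closure (Set.range (fun x : S => f (z x))) = ⊤ := by
    have h1 : Set.range (fun x : S => f (z x)) = f '' Set.range (fun x : S => z x) := by
      rw [← Set.range_comp]
      rfl
    rw [h1, ← MonoidHom.map_closure, hzc, ← MonoidHom.range_eq_map, MonoidHom.range_eq_top]
    exact hsurj
  have hc := vs_card f (fun x : S => gb x) (fun x : S => f (z x)) hy hy' ⊤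
  have : Finite (Vs f (fun x : S => f (z x)) ⊤) := finVs _ _ _
  have : Finite (Vs f (fun x : S => gb x) ⊤) := finVs _ _ _
  have hne : Nonempty (Vs f (fun x : S => f (z x)) ⊤) := ⟨⟨fun x => z x, fun x => rfl, hzc⟩⟩
  have hpos : 0 < Nat.card (Vs f (fun x : S => gb x) ⊤) := by
    rw [hc]
    exact Nat.card_pos
  obtain ⟨v⟩ := (Nat.card_pos_iff.1 hpos).1
  refine ⟨fun x => if hx : x ∈ S then v.1 ⟨x, hx⟩ else 1, fun x hx => ?_, ?_⟩
  · simp only [dif_pos hx]
    exact v.2.1 ⟨x, hx⟩
  · rw [Gen_iff_closure, eq_top_iff]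
    refine (le_of_eq v.2.2.symm).trans ?_
    refine Subgroup.closure_mono ?_
    rintro _ ⟨⟨x, hx⟩, rfl⟩
    exact ⟨x, hx, by simp only [dif_pos hx]⟩

end Sol

end RED
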