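import Pool.Agent.RED5.D5

/-!
# Letters and kernels with short generating sets
-/

set_option autoImplicit false

namespace RED

open AFn IAQ

namespace Sol

variable {n : ℕ} {G K : Type*} [Group G] [Group K] {f : G →* K} {l : ℕ}
  {I : Finset (Fin n)} {gb : Fin n → K} {h : Fin n → G}

theorem kb_letters (hk : KB f l) (P : Finset (Fin n)) (hP : ∀ i ∈ P, f (h i) = 1) :
    ∃ M : Finset (Fin n), M ⊆ P ∧ M.card ≤ l ∧
      ∀ i ∈ P, h i ∈ Subgroup.closure (h '' (M : Set (Fin n))) := by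
  classical
  obtain ⟨T, h1, h2, h3⟩ := hk (P.image h) (by
    intro x hx
    obtain ⟨i, hi, rfl⟩ := Finset.mem_image.1 hx
    exact hP i hi)
  have hex : ∀ t : T, ∃ x, x ∈ P ∧ h x = t := by
    intro t
    obtain ⟨x, hx, hxt⟩ := Finset.mem_image.1 (h1 t.2)
    exact ⟨x, hx, hxt⟩
  choose r hr1 hr2 using hex
  refine ⟨Finset.univ.image r, ?_, ?_, ?_⟩
  · intro x hx
    obtain ⟨t, -, rfl⟩ := Finset.mem_image.1 hx
    exact hr1 t
  · refine Finset.card_image_le.trans ?_
    rw [Finset.card_univ, Fintype.card_coe]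
    exact h2
  · intro i hi
    have hle : Subgroup.closure (T : Set G) ≤
        Subgroup.closure (h '' ((Finset.univ.image r : Finset (Fin n)) : Set (Fin n))) := by
      refine Subgroup.closure_mono ?_
      intro t ht
      have ht' : t ∈ T := ht
      exact ⟨r ⟨t, ht'⟩, Finset.mem_coe.2 (Finset.mem_image_of_mem r (Finset.mem_univ _)),
        hr2 ⟨t, ht'⟩⟩
    exact hle (h3 (h i) (Finset.mem_image_of_mem h hi))

theorem kb_gen (hk : KB f l) (h1 : ∀ i ∈ I, gb i = 1) (hh : ∀ x, f (h x) = gb x)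
    {Q : Finset (Fin n)} (hG : Gen h Qᶜ) :
    ∃ M : Finset (Fin n), M ⊆ I \ Q ∧ M.card ≤ l ∧ ∀ S, (I ∪ Q)ᶜ ∪ M ⊆ S → Gen h S := by
  obtain ⟨M, hM1, hM2, hM3⟩ := kb_letters (h := h) hk (I \ Q) (by
    intro i hi
    rw [hh i]
    exact h1 i (Finset.mem_sdiff.1 hi).1)
  refine ⟨M, hM1, hM2, ?_⟩
  intro S hS
  rw [Gen_iff_closure] at hG ⊢
  rw [eq_top_iff, ← hG, Subgroup.closure_le]
  rintro y ⟨i, hi, rfl⟩
  have hiQ : i ∉ Q := by
    have := Finset.mem_coe.1 hi
    exact Finset.mem_compl.1 this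
  by_cases hiI : i ∈ I
  · have hle : Subgroup.closure (h '' (M : Set (Fin n))) ≤
        Subgroup.closure (h '' (S : Set (Fin n))) := by
      refine Subgroup.closure_mono (Set.image_mono ?_)
      intro x hx
      exact Finset.mem_coe.2 (hS (Finset.mem_union_right _ (Finset.mem_coe.1 hx)))
    exact hle (hM3 i (Finset.mem_sdiff.2 ⟨hiI, hiQ⟩))
  · refine Subgroup.subset_closure ⟨i, ?_, rfl⟩
    refine Finset.mem_coe.2 (hS (Finset.mem_union_left _ ?_))
    rw [Finset.mem_compl, Finset.mem_union]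
    rintro (h | h)
    · exact hiI h
    · exact hiQ h

theorem full_gen (hgb : Gen gb Iᶜ) (hh : ∀ x, f (h x) = gb x) {Q : Finset (Fin n)}
    (hQ : Full f Q h) {S : Finset (Fin n)} (hS : Iᶜ ∪ Q ⊆ S) : Gen h S := by
  rw [Gen_iff_closure] at hgb ⊢
  rw [eq_top_iff]
  intro x _
  have him : gb '' ((Iᶜ : Finset (Fin n)) : Set (Fin n)) =
      f '' (h '' ((Iᶜ : Finset (Fin n)) : Set (Fin n))) := by
    rw [Set.image_image]
    refine Set.image_congr ?_
    intro a _
    exact (hh a).symm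
  have hx : f x ∈ (Subgroup.closure (h '' ((Iᶜ : Finset (Fin n)) : Set (Fin n)))).map f := by
    rw [MonoidHom.map_closure, ← him, hgb]
    exact Subgroup.mem_top _
  obtain ⟨y, hy, hyx⟩ := Subgroup.mem_map.1 hx
  have h1 : y ∈ Subgroup.closure (h '' (S : Set (Fin n))) := by
    refine Subgroup.closure_mono (Set.image_mono ?_) hy
    intro a ha
    exact Finset.mem_coe.2 (hS (Finset.mem_union_left _ (Finset.mem_coe.1 ha)))
  have h2 : y⁻¹ * x ∈ Subgroup.closure (h '' (S : Set (Fin n))) := by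
    refine Subgroup.closure_mono (Set.image_mono ?_) (hQ (y⁻¹ * x) ?_)
    · intro a ha
      exact Finset.mem_coe.2 (hS (Finset.mem_union_right _ (Finset.mem_coe.1 ha)))
    · rw [map_mul, map_inv, hyx, inv_mul_cancel]
  have h3 := mul_mem h1 h2
  rwa [mul_inv_cancel_left] at h3

end Sol

end RED
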