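import Pool.Agent.RED5.KBa

/-!
# Letters which are not needed
-/

set_option autoImplicit false

namespace RED

open AFn IAQ

namespace Sol

variable {n : ℕ} {G K : Type*} [Group G] [Group K] {f : G →* K} {l : ℕ}
  {I : Finset (Fin n)} {gb : Fin n → K} {h : Fin n → G}

private theorem kb_M (hk : KB f l) (h1 : ∀ i ∈ I, gb i = 1) (hh : Fb f gb h) :
    ∃ M : Finset (Fin n), M ⊆ I ∧ M.card ≤ l ∧ ∀ S : Finset (Fin n), Iᶜ ∪ M ⊆ S → Gen h S := by
  have hG : Gen h (∅ : Finset (Fin n))ᶜ := by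
    rw [Finset.compl_empty]
    exact hh.2
  obtain ⟨M, hM, hc, hS⟩ := kb_gen hk h1 hh.1 hG
  rw [Finset.sdiff_empty] at hM
  refine ⟨M, hM, hc, fun S hsub => hS S ?_⟩
  rw [Finset.union_empty]
  exact hsub

theorem kb_HB (hk : KB f l) (hI : Lg I l) (h1 : ∀ i ∈ I, gb i = 1) : HB f I gb := by
  have hI1 := hI.1
  have hI2 := hI.2
  refine ⟨?_, ?_⟩
  · intro h hh a b
    obtain ⟨M, hM, hc, hS⟩ := kb_M hk h1 hh
    have h3 : 0 < (I \ (M ∪ {a, b})).card := by
      have h4 := Finset.le_card_sdiff (M ∪ {a, b}) I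
      have h5 := Finset.card_union_le M {a, b}
      have h6 : ({a, b} : Finset (Fin n)).card ≤ 2 := Finset.card_le_two
      omega
    obtain ⟨e, he⟩ := Finset.card_pos.1 h3
    rw [Finset.mem_sdiff, Finset.mem_union, Finset.mem_insert, Finset.mem_singleton] at he
    push Not at he
    refine ⟨e, he.1, he.2.2.1, he.2.2.2, hS _ ?_⟩
    intro x hx
    rw [Finset.mem_compl, Finset.mem_singleton]
    rintro rfl
    rcases Finset.mem_union.1 hx with h7 | h7
    · exact (Finset.mem_compl.1 h7) he.1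
    · exact he.2.1 h7
  · intro h hh e e' hG hG'
    obtain ⟨M, hM, hc, hS⟩ := kb_gen hk h1 hh.1 hG
    obtain ⟨M', hM', hc', hS'⟩ := kb_gen hk h1 hh.1 hG'
    have h3 : 0 < (I \ (M ∪ M')).card := by
      have h4 := Finset.le_card_sdiff (M ∪ M') I
      have h5 := Finset.card_union_le M M'
      omega
    obtain ⟨e'', he⟩ := Finset.card_pos.1 h3
    rw [Finset.mem_sdiff, Finset.mem_union] at he
    push Not at he
    refine ⟨e'', hS _ ?_, hS' _ ?_⟩
    · intro x hx
      rw [Finset.mem_compl, Finset.mem_insert, Finset.mem_singleton]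
      rcases Finset.mem_union.1 hx with h7 | h7
      · rw [Finset.mem_compl, Finset.mem_union, Finset.mem_singleton] at h7
        rintro (rfl | rfl)
        · exact h7 (Or.inr rfl)
        · exact h7 (Or.inl he.1)
      · have h8 := Finset.mem_sdiff.1 (hM h7)
        rw [Finset.mem_singleton] at h8
        rintro (rfl | rfl)
        · exact h8.2 rfl
        · exact he.2.1 h7
    · intro x hx
      rw [Finset.mem_compl, Finset.mem_insert, Finset.mem_singleton]
      rcases Finset.mem_union.1 hx with h7 | h7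
      · rw [Finset.mem_compl, Finset.mem_union, Finset.mem_singleton] at h7
        rintro (rfl | rfl)
        · exact h7 (Or.inr rfl)
        · exact h7 (Or.inl he.1)
      · have h8 := Finset.mem_sdiff.1 (hM' h7)
        rw [Finset.mem_singleton] at h8
        rintro (rfl | rfl)
        · exact h8.2 rfl
        · exact he.2.2 h7

/-- a set of `l` letters of `I` which are not needed, different from two given letters -/
theorem kb_pick (hk : KB f l) (hI : Lg I l) (h1 : ∀ i ∈ I, gb i = 1) (hh : Fb f gb h)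
    (b c : Fin n) : ∃ Q : Finset (Fin n), Q ⊆ I ∧ Q.card = l ∧ b ∉ Q ∧ c ∉ Q ∧ Gen h Qᶜ := by
  have hI2 := hI.2
  obtain ⟨M, hM, hc, hS⟩ := kb_M hk h1 hh
  have h3 : l ≤ (I \ (M ∪ {b, c})).card := by
    have h4 := Finset.le_card_sdiff (M ∪ {b, c}) I
    have h5 := Finset.card_union_le M {b, c}
    have h6 : ({b, c} : Finset (Fin n)).card ≤ 2 := Finset.card_le_two
    omega
  obtain ⟨Q, hQ, hQc⟩ := Finset.exists_subset_card_eq h3
  have hQ1 : ∀ x ∈ Q, x ∈ I ∧ x ∉ M ∧ x ≠ b ∧ x ≠ c := by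
    intro x hx
    have h4 := hQ hx
    rw [Finset.mem_sdiff, Finset.mem_union, Finset.mem_insert, Finset.mem_singleton] at h4
    push Not at h4
    exact ⟨h4.1, h4.2.1, h4.2.2.1, h4.2.2.2⟩
  refine ⟨Q, fun x hx => (hQ1 x hx).1, hQc, fun hb => (hQ1 b hb).2.2.1 rfl,
    fun hc => (hQ1 c hc).2.2.2 rfl, hS _ ?_⟩
  intro x hx
  rw [Finset.mem_compl]
  intro hxQ
  rcases Finset.mem_union.1 hx with h7 | h7
  · exact (Finset.mem_compl.1 h7) (hQ1 x hxQ).1
  · exact (hQ1 x hxQ).2.1 h7

end Sol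

end RED
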