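import Pool.Agent.RED5.KBa
import Pool.Agent.RED.NS3

/-!
# The group `MQ`: decomposition and uniqueness
-/

set_option autoImplicit false

namespace RED

open AFn IAQ

namespace Sol

variable {n : ℕ} {G K : Type*} [Group G] [Group K] {I Q : Finset (Fin n)}

private def mqa (I Q : Finset (Fin n)) (a : MulAut (FreeGroup (Fin n))) : Prop :=
  (∀ i ∈ I, a (FreeGroup.of i) = FreeGroup.of i) ∧
    ∀ j, j ∉ I → ∃ w ∈ fsub Q, a (FreeGroup.of j) = FreeGroup.of j * w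

private theorem mqa_fix (hQ : Q ⊆ I) {a : MulAut (FreeGroup (Fin n))} (h : mqa I Q a)
    {w : FreeGroup (Fin n)} (hw : w ∈ fsub Q) : a w = w := by
  unfold fsub at hw
  induction hw using Subgroup.closure_induction with
  | mem y hy =>
    obtain ⟨x, hx, rfl⟩ := hy
    exact h.1 x (hQ (Finset.mem_coe.1 hx))
  | one => exact map_one a
  | mul y z _ _ hy hz => rw [map_mul, hy, hz]
  | inv y _ hy => rw [map_inv, hy]

private theorem mqa_one : mqa I Q 1 :=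
  ⟨fun _ _ => rfl, fun j _ => ⟨1, (fsub Q).one_mem, by rw [mul_one]; rfl⟩⟩

private theorem mqa_mul (hQ : Q ⊆ I) {a b : MulAut (FreeGroup (Fin n))} (ha : mqa I Q a)
    (hb : mqa I Q b) : mqa I Q (a * b) := by
  refine ⟨fun i hi => ?_, fun j hj => ?_⟩
  · rw [MulAut.mul_apply, hb.1 i hi, ha.1 i hi]
  · obtain ⟨w, hw, h1⟩ := ha.2 j hj
    obtain ⟨w', hw', h2⟩ := hb.2 j hj
    refine ⟨w * w', (fsub Q).mul_mem hw hw', ?_⟩
    rw [MulAut.mul_apply, h2, map_mul, h1, mqa_fix hQ ha hw', mul_assoc]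

private theorem mqa_inv (hQ : Q ⊆ I) {a : MulAut (FreeGroup (Fin n))} (ha : mqa I Q a) :
    mqa I Q a⁻¹ := by
  refine ⟨fun i hi => ?_, fun j hj => ?_⟩
  · rw [MulAut.inv_apply, MulEquiv.symm_apply_eq, ha.1 i hi]
  · obtain ⟨w, hw, h1⟩ := ha.2 j hj
    refine ⟨w⁻¹, (fsub Q).inv_mem hw, ?_⟩
    rw [MulAut.inv_apply, MulEquiv.symm_apply_eq, map_mul, h1,
      mqa_fix hQ ha ((fsub Q).inv_mem hw), mul_inv_cancel_right]

private theorem mqa_R {j : Fin n} (hQ : Q ⊆ I) (hj : j ∉ I) {w : FreeGroup (Fin n)}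
    (hw : w ∈ fsub Q) : mqa I Q (R j w) := by
  refine ⟨fun i hi => R_of_ne (fun h : i = j => hj (h ▸ hi)) w, fun i hi => ?_⟩
  by_cases h : i = j
  · subst h
    exact ⟨w, hw, by rw [R_of_self, kill_eq hw fun h => hi (hQ h)]⟩
  · exact ⟨1, (fsub Q).one_mem, by rw [R_of_ne h, mul_one]⟩

private theorem mqa_pres {a : MulAut (FreeGroup (Fin n))} (ha : mqa I Q a) :
    ∀ e ∈ I \ Q, Pres e a := by
  intro e he
  rw [Finset.mem_sdiff] at he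
  refine pres_of (ha.1 e he.1) fun x hx => ?_
  by_cases hxI : x ∈ I
  · rw [ha.1 x hxI, kill_of_ne hx]
  · obtain ⟨w, hw, h1⟩ := ha.2 x hxI
    rw [h1, map_mul, kill_of_ne hx, kill_eq hw he.2]

private def mqaS (hQ : Q ⊆ I) : Subgroup (MulAut (FreeGroup (Fin n))) where
  carrier := {θ | ∃ ψ ∈ MvS (I \ Q), ∃ a, mqa I Q a ∧ θ = ψ * a}
  mul_mem' := by
    rintro _ _ ⟨ψ, hψ, a, ha, rfl⟩ ⟨ψ', hψ', a', ha', rfl⟩
    refine ⟨ψ * (a * ψ' * a⁻¹), (MvS (I \ Q)).mul_mem hψ (NConj.conj_MvS (mqa_pres ha) hψ'),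
      a * a', mqa_mul hQ ha ha', ?_⟩
    group
  one_mem' := ⟨1, (MvS (I \ Q)).one_mem, 1, mqa_one, by rw [mul_one]⟩
  inv_mem' := by
    rintro _ ⟨ψ, hψ, a, ha, rfl⟩
    refine ⟨a⁻¹ * ψ⁻¹ * (a⁻¹)⁻¹, NConj.conj_MvS (mqa_pres (mqa_inv hQ ha))
      ((MvS (I \ Q)).inv_mem hψ), a⁻¹, mqa_inv hQ ha, ?_⟩
    group

theorem MQ_decomp (hQ : Q ⊆ I) {θ : MulAut (FreeGroup (Fin n))} (hθ : θ ∈ MQ I Q) :
    ∃ ψ ∈ MvS (I \ Q), ∃ a : MulAut (FreeGroup (Fin n)),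
      (∀ i ∈ I, a (FreeGroup.of i) = FreeGroup.of i) ∧
      (∀ j, j ∉ I → ∃ w ∈ fsub Q, a (FreeGroup.of j) = FreeGroup.of j * w) ∧ θ = ψ * a := by
  have h : MQ I Q ≤ mqaS hQ := by
    refine sup_le (fun ψ hψ => ⟨ψ, hψ, 1, mqa_one, by rw [mul_one]⟩) ?_
    rw [Subgroup.closure_le]
    rintro _ ⟨j, hj, w, hw, rfl⟩
    exact ⟨1, (MvS (I \ Q)).one_mem, R j w, mqa_R hQ hj hw, by rw [one_mul]⟩
  obtain ⟨ψ, hψ, a, ha, he⟩ := h hθ
  exact ⟨ψ, hψ, a, ha.1, ha.2, he⟩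

end Sol

end RED
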