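import Pool.Agent.RED5.MQa

/-!
# The group `MQ`: uniqueness
-/

set_option autoImplicit false

namespace RED

open AFn IAQ

namespace Sol

variable {n : ℕ} {G K : Type*} [Group G] [Group K] {I Q : Finset (Fin n)}
  {E : Type*} [MulAction (MulAut (FreeGroup (Fin n))) E] {f : G →* K}
  {gb : Fin n → K} {p : E → Fin n → G} {In : E → Prop}

private def mqb_stab (a : Fin n) : Subgroup (MulAut (FreeGroup (Fin n))) where
  carrier := {φ | φ (FreeGroup.of a) = FreeGroup.of a}
  one_mem' := rfl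
  mul_mem' := by
    intro x y hx hy
    have hx' : x (FreeGroup.of a) = FreeGroup.of a := hx
    have hy' : y (FreeGroup.of a) = FreeGroup.of a := hy
    show (x * y) (FreeGroup.of a) = FreeGroup.of a
    rw [MulAut.mul_apply, hy', hx']
  inv_mem' := by
    intro x hx
    have hx' : x (FreeGroup.of a) = FreeGroup.of a := hx
    show x⁻¹ (FreeGroup.of a) = FreeGroup.of a
    apply x.injective
    rw [← MulAut.mul_apply, mul_inv_cancel, MulAut.one_apply, hx']

private theorem mqb_MvS {Y : Finset (Fin n)} {a : Fin n} (ha : a ∉ Y)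
    {θ : MulAut (FreeGroup (Fin n))} (hθ : θ ∈ MvS Y) :
    θ (FreeGroup.of a) = FreeGroup.of a := by
  have h : MvS Y ≤ mqb_stab a := by
    unfold MvS
    rw [Subgroup.closure_le]
    rintro φ ⟨y, hy, hφ⟩
    have hay : a ≠ y := fun h => ha (h ▸ hy)
    exact Mv_fix hay hφ
  exact h hθ

private theorem mqb_MvS_act {Y : Finset (Fin n)} {a : Fin n} (ha : a ∉ Y)
    {θ : MulAut (FreeGroup (Fin n))} (hθ : θ ∈ MvS Y) (h : Fin n → G) :
    act θ h a = h a := by
  show ev h (θ⁻¹ (FreeGroup.of a)) = h a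
  rw [mqb_MvS ha ((MvS Y).inv_mem hθ), ev_of]

private theorem mqb_inv {θ : MulAut (FreeGroup (Fin n))} {a : Fin n}
    (h : θ (FreeGroup.of a) = FreeGroup.of a) : θ⁻¹ (FreeGroup.of a) = FreeGroup.of a :=
  (mqb_stab a).inv_mem h

private theorem mqb_fsub {θ : MulAut (FreeGroup (Fin n))} {S : Finset (Fin n)}
    (h : ∀ a ∈ S, θ (FreeGroup.of a) = FreeGroup.of a) {w : FreeGroup (Fin n)}
    (hw : w ∈ fsub S) : θ w = w := by
  unfold fsub at hw
  induction hw using Subgroup.closure_induction with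
  | mem x hx =>
    obtain ⟨y, hy, rfl⟩ := hx
    exact h y (Finset.mem_coe.1 hy)
  | one => exact map_one _
  | mul x y _ _ hx hy => rw [map_mul, hx, hy]
  | inv x _ hx => rw [map_inv, hx]

theorem MQ_fix (hQ : Q ⊆ I) {θ : MulAut (FreeGroup (Fin n))} (hθ : θ ∈ MQ I Q)
    (h : Fin n → G) {a : Fin n} (ha : a ∈ Q) : act θ h a = h a := by
  have h1 : MQ I Q ≤ mqb_stab a := by
    unfold MQ
    refine sup_le ?_ ?_
    · intro φ hφ
      exact mqb_MvS (fun h => (Finset.mem_sdiff.1 h).2 ha) hφ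
    · rw [Subgroup.closure_le]
      rintro φ ⟨j, hj, w, -, rfl⟩
      have haj : a ≠ j := fun h => hj (h ▸ hQ ha)
      exact R_of_ne haj w
  have h2 : θ⁻¹ (FreeGroup.of a) = FreeGroup.of a := h1 ((MQ I Q).inv_mem hθ)
  show ev h (θ⁻¹ (FreeGroup.of a)) = h a
  rw [h2, ev_of]

private theorem mqb_pres {Q : Finset (Fin n)} {j e : Fin n} (hj : j ∉ Q) (he : e ∉ Q)
    (hje : j ≠ e) {w : FreeGroup (Fin n)} (hw : w ∈ fsub Q) : Pres e (R j w) := by
  refine pres_of (R_of_ne (Ne.symm hje) w) fun x hx => ?_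
  by_cases hxj : x = j
  · rw [hxj, R_of_self, map_mul, kill_of_ne hje, kill_eq hw hj, kill_eq hw he]
  · rw [R_of_ne hxj, kill_of_ne hx]

private theorem mqb_ind (hA : FB f I gb p In) (hQ : Q ⊆ I) (hc : 2 ≤ (I \ Q).card) {x : E}
    (hx : In x) (hF : Full f Q (p x)) (S : Finset (Fin n)) :
    (∀ j ∈ S, j ∉ I) → ∀ a : MulAut (FreeGroup (Fin n)),
      (∀ i, i ∉ S → a (FreeGroup.of i) = FreeGroup.of i) →
      (∀ j ∈ S, ∃ w ∈ fsub Q, a (FreeGroup.of j) = FreeGroup.of j * w) →
      act a (p x) = p x → a • x = x := by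
  induction S using Finset.induction_on with
  | empty =>
    intro _ a ha _ _
    have h1 : a = 1 := IAQ.aut_ext fun i => by
      rw [ha i (Finset.notMem_empty i), MulAut.one_apply]
    rw [h1, one_smul]
  | insert j S hjS ih =>
    intro hS a ha hw hp
    have hjI : j ∉ I := hS j (Finset.mem_insert_self j S)
    have hjQ : j ∉ Q := fun h => hjI (hQ h)
    obtain ⟨w, hwQ, haw⟩ := hw j (Finset.mem_insert_self j S)
    have hkw : kill j w = w := kill_eq hwQ hjQ
    have haQ : a w = w := mqb_fsub (fun i hi => ha i fun h => (hS i h) (hQ hi)) hwQ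
    have haj : a⁻¹ (FreeGroup.of j) = FreeGroup.of j * w⁻¹ := by
      apply a.injective
      rw [← MulAut.mul_apply, mul_inv_cancel, MulAut.one_apply, map_mul, map_inv, haw, haQ,
        mul_inv_cancel_right]
    have hev : ev (p x) w = 1 := by
      have h1 := congrFun hp j
      have h2 : act a (p x) j = p x j * (ev (p x) w)⁻¹ := by
        show ev (p x) (a⁻¹ (FreeGroup.of j)) = _
        rw [haj, map_mul, map_inv, ev_of]
      rw [h2] at h1
      have h3 : (ev (p x) w)⁻¹ = 1 := mul_eq_left.1 h1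
      exact inv_eq_one.1 h3
    have hR : act (R j w) (p x) = p x := by
      funext i
      by_cases hi : i = j
      · rw [hi]
        show ev (p x) ((R j w)⁻¹ (FreeGroup.of j)) = p x j
        rw [← map_inv, R_of_self, map_mul, ev_of, map_inv, map_inv, hkw, hev, inv_one, mul_one]
      · show ev (p x) ((R j w)⁻¹ (FreeGroup.of i)) = p x i
        rw [← map_inv, R_of_ne hi, ev_of]
    have hRf : ∀ u ∈ fsub Q, (R j w)⁻¹ u = u := by
      intro u hu
      apply (R j w).injective
      rw [← MulAut.mul_apply, mul_inv_cancel, MulAut.one_apply, R_fix hjQ hu]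
    have hb : ((R j w)⁻¹ * a) • x = x := by
      refine ih (fun i hi => hS i (Finset.mem_insert_of_mem hi)) _ (fun i hi => ?_)
        (fun i hi => ?_) ?_
      · rw [MulAut.mul_apply]
        by_cases hij : i = j
        · rw [hij, haw, map_mul, hRf w hwQ, ← map_inv, R_of_self, map_inv, hkw,
            inv_mul_cancel_right]
        · rw [ha i (fun h => (Finset.mem_insert.1 h).elim hij hi), ← map_inv, R_of_ne hij]
      · have hij : i ≠ j := fun h => hjS (h ▸ hi)
        obtain ⟨u, hu, hau⟩ := hw i (Finset.mem_insert_of_mem hi)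
        refine ⟨u, hu, ?_⟩
        rw [MulAut.mul_apply, hau, map_mul, hRf u hu, ← map_inv, R_of_ne hij]
      · rw [act_mul, hp]
        conv_lhs => rw [← hR]
        rw [act_inv_act]
    have hRx : R j w • x = x := by
      obtain ⟨e, he, i, hi, hei⟩ := Finset.one_lt_card.1 (show 1 < (I \ Q).card by omega)
      have heI := Finset.mem_sdiff.1 he
      have hiI := Finset.mem_sdiff.1 hi
      have hG : Gen (p x) ({i, e} : Finset (Fin n))ᶜ := by
        refine full_gen hA.gen (hA.fb x hx).1 hF ?_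
        intro y hy
        rw [Finset.mem_compl, Finset.mem_insert, Finset.mem_singleton]
        rcases Finset.mem_union.1 hy with h | h
        · rintro (h' | h')
          · exact (Finset.mem_compl.1 h) (h' ▸ hiI.1)
          · exact (Finset.mem_compl.1 h) (h' ▸ heI.1)
        · rintro (h' | h')
          · exact hiI.2 (h' ▸ h)
          · exact heI.2 (h' ▸ h)
      have hje : j ≠ e := fun h => hjI (h ▸ heI.1)
      have hij : i ≠ j := fun h => hjI (h ▸ hiI.1)
      have h1 := hA.qq j e i (R j w) 1 x hx hje (Ne.symm hei) hij hG (R_mem_Mv j w)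
        (Mv j).one_mem (mqb_pres hjQ heI.2 hje hwQ) (Pres_one e) (by rw [act_one, hR])
      rw [h1, one_smul]
    calc a • x = (R j w * ((R j w)⁻¹ * a)) • x := by rw [mul_inv_cancel_left]
      _ = R j w • (((R j w)⁻¹ * a) • x) := mul_smul _ _ _
      _ = x := by rw [hb, hRx]

theorem MQ_uniq (hA : FB f I gb p In) (hQ : Q ⊆ I) (hc : 2 ≤ (I \ Q).card) {x : E}
    (hx : In x) (hF : Full f Q (p x)) {θ θ' : MulAut (FreeGroup (Fin n))} (hθ : θ ∈ MQ I Q)
    (hθ' : θ' ∈ MQ I Q) (h : act θ (p x) = act θ' (p x)) : θ • x = θ' • x := by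
  have hσ : θ'⁻¹ * θ ∈ MQ I Q := (MQ I Q).mul_mem ((MQ I Q).inv_mem hθ') hθ
  have hσp : act (θ'⁻¹ * θ) (p x) = p x := by rw [act_mul, h, act_inv_act]
  obtain ⟨ψ, hψ, a, ha1, ha2, hd⟩ := MQ_decomp hQ hσ
  have hap : act a (p x) = p x := by
    funext i
    by_cases hi : i ∈ I
    · show ev (p x) (a⁻¹ (FreeGroup.of i)) = _
      rw [mqb_inv (ha1 i hi), ev_of]
    · have h1 : act ψ (act a (p x)) i = p x i := by rw [← act_mul, ← hd, hσp]
      rwa [mqb_MvS_act (fun h => hi (Finset.mem_sdiff.1 h).1) hψ] at h1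
  have hψp : act ψ (p x) = p x := by
    have h1 : act ψ (act a (p x)) = p x := by rw [← act_mul, ← hd, hσp]
    rwa [hap] at h1
  have hψx : ψ • x = x := by
    have h1 := hA.red (I \ Q) ψ 1 x hx (full_gen hA.gen (hA.fb x hx).1 hF (by
      intro y hy
      rw [Finset.mem_compl]
      intro h'
      rcases Finset.mem_union.1 hy with h'' | h''
      · exact (Finset.mem_compl.1 h'') (Finset.mem_sdiff.1 h').1
      · exact (Finset.mem_sdiff.1 h').2 h'')) hψ (MvS (I \ Q)).one_mem (by rw [act_one, hψp])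
    rw [h1, one_smul]
  have hax : a • x = x := by
    refine mqb_ind hA hQ hc hx hF Iᶜ (fun j hj => Finset.mem_compl.1 hj) a (fun i hi => ?_)
      (fun j hj => ha2 j (Finset.mem_compl.1 hj)) hap
    exact ha1 i (by
      by_contra h'
      exact hi (Finset.mem_compl.2 h'))
  have hσx : (θ'⁻¹ * θ) • x = x := by rw [hd, mul_smul, hax, hψx]
  calc θ • x = (θ' * (θ'⁻¹ * θ)) • x := by rw [mul_inv_cancel_left]
    _ = θ' • ((θ'⁻¹ * θ) • x) := mul_smul _ _ _
    _ = θ' • x := by rw [hσx]

end Sol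

end RED
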