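import Pool.Agent.RED5.KBa

/-!
# The group `MQ`: existence
-/

set_option autoImplicit false

namespace RED

open AFn IAQ

namespace Sol

variable {n : ℕ} {G K : Type*} [Group G] [Group K] {I Q : Finset (Fin n)}
  {E : Type*} [MulAction (MulAut (FreeGroup (Fin n))) E] {f : G →* K}
  {gb : Fin n → K} {p : E → Fin n → G} {In : E → Prop}

/-- one letter outside of `I` -/
theorem R_exists (hQ : Q ⊆ I) (h1 : ∀ i ∈ I, gb i = 1) {h : Fin n → G}
    (hF : Full f Q h) {j : Fin n} (hj : j ∉ I) (hh : f (h j) = gb j) {y : G} (hy : f y = gb j) :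
    ∃ w ∈ fsub Q, R j w ∈ Gam gb ∧ act (R j w) h = Function.update h j y := by
  have hjQ : j ∉ Q := fun hm => hj (hQ hm)
  have hker : f (y⁻¹ * h j) = 1 := by
    rw [map_mul, map_inv, hh, hy, inv_mul_cancel]
  obtain ⟨w, hw, hwx⟩ := (exists_word_iff h Q _).2 (hF _ hker)
  refine ⟨w, hw, ?_, ?_⟩
  · rw [R_mem_Gam_iff, kill_eq hw hjQ]
    have h2 : ev gb w = ev (fun _ => (1 : K)) w := ev_congr (fun x hx => h1 x (hQ hx)) hw
    have h3 : ev (fun _ : Fin n => (1 : K)) = 1 := by
      ext x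
      rw [ev_of, MonoidHom.one_apply]
    rw [h2, h3, MonoidHom.one_apply]
  · funext x
    change ev h ((R j w)⁻¹ (FreeGroup.of x)) = _
    rw [← map_inv]
    by_cases hx : x = j
    · rw [hx, Function.update_self, R_of_self, kill_eq ((fsub Q).inv_mem hw) hjQ, map_mul, ev_of,
        map_inv, hwx, mul_inv_rev, inv_inv, mul_inv_cancel_left]
    · rw [Function.update_of_ne hx, R_of_ne hx, ev_of]

theorem MQ_exists (hQ : Q ⊆ I) (h1 : ∀ i ∈ I, gb i = 1) (hgb : Gen gb Iᶜ)
    {h h' : Fin n → G} (hF : Full f Q h) (hh : ∀ x, f (h x) = gb x)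
    (hh' : ∀ x, f (h' x) = gb x) (he : ∀ i ∈ Q, h' i = h i) : ∃ θ ∈ MQ I Q, act θ h = h' := by
  classical
  have key : ∀ S : Finset (Fin n), S ⊆ Iᶜ → ∃ θ ∈ MQ I Q, act θ h = upd h S h' := by
    intro S
    induction S using Finset.induction_on with
    | empty =>
      intro _
      refine ⟨1, Subgroup.one_mem _, ?_⟩
      rw [act_one]
      funext x
      rw [upd_of_notMem (Finset.notMem_empty x)]
    | insert j S hjS ih =>
      intro hS
      obtain ⟨θ, hθ, hθh⟩ := ih ((Finset.subset_insert j S).trans hS)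
      have hjI : j ∉ I := Finset.mem_compl.1 (hS (Finset.mem_insert_self j S))
      have hFull : Full f Q (upd h S h') := by
        intro x hx
        have h2 : (upd h S h') '' (Q : Set (Fin n)) = h '' (Q : Set (Fin n)) := by
          refine Set.image_congr fun a ha => upd_of_notMem fun haS => ?_
          exact Finset.mem_compl.1 (hS (Finset.mem_insert_of_mem haS)) (hQ (by simpa using ha))
        rw [h2]
        exact hF x hx
      have hv : f (upd h S h' j) = gb j := by
        rw [upd_of_notMem hjS]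
        exact hh j
      obtain ⟨w, hw, -, hw2⟩ := R_exists hQ h1 hFull hjI hv (hh' j)
      refine ⟨R j w * θ, Subgroup.mul_mem _ ?_ hθ, ?_⟩
      · exact (le_sup_right : _ ≤ MQ I Q) (Subgroup.subset_closure ⟨j, hjI, w, hw, rfl⟩)
      · rw [act_mul, hθh, hw2]
        funext x
        by_cases hx : x = j
        · rw [hx, Function.update_self, upd_of_mem (Finset.mem_insert_self j S)]
        · rw [Function.update_of_ne hx]
          by_cases hxS : x ∈ S
          · rw [upd_of_mem hxS, upd_of_mem (Finset.mem_insert_of_mem hxS)]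
          · rw [upd_of_notMem hxS, upd_of_notMem]
            intro hmem
            rcases Finset.mem_insert.1 hmem with h3 | h3
            · exact hx h3
            · exact hxS h3
  obtain ⟨θ, hθ, hθh⟩ := key Iᶜ (Finset.Subset.refl _)
  have hFull : Full f Q (upd h Iᶜ h') := by
    intro x hx
    have h2 : (upd h Iᶜ h') '' (Q : Set (Fin n)) = h '' (Q : Set (Fin n)) := by
      refine Set.image_congr fun a ha => upd_of_notMem fun haS => ?_
      exact Finset.mem_compl.1 haS (hQ (by simpa using ha))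
    rw [h2]
    exact hF x hx
  have hv : ∀ x, f (upd h Iᶜ h' x) = gb x := by
    intro x
    by_cases hx : x ∈ Iᶜ
    · rw [upd_of_mem hx]; exact hh' x
    · rw [upd_of_notMem hx]; exact hh x
  have hgen : Gen (upd h Iᶜ h') (I \ Q)ᶜ := by
    refine full_gen hgb hv hFull ?_
    intro x hx
    rw [Finset.mem_compl, Finset.mem_sdiff]
    rintro ⟨h3, h4⟩
    rcases Finset.mem_union.1 hx with h5 | h5
    · exact Finset.mem_compl.1 h5 h3
    · exact h4 h5
  obtain ⟨ψ, hψ, hψh⟩ := exists_upd hgen h'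
  refine ⟨ψ * θ, Subgroup.mul_mem _ ((le_sup_left : MvS (I \ Q) ≤ MQ I Q) hψ) hθ, ?_⟩
  rw [act_mul, hθh, hψh]
  funext x
  by_cases hx : x ∈ I \ Q
  · rw [upd_of_mem hx]
  · rw [upd_of_notMem hx]
    by_cases hxI : x ∈ I
    · have hxQ : x ∈ Q := by
        by_contra hxQ
        exact hx (Finset.mem_sdiff.2 ⟨hxI, hxQ⟩)
      rw [upd_of_notMem (by simpa using hxI), he x hxQ]
    · rw [upd_of_mem (by simpa using hxI)]

theorem MQ_good (hA : FB f I gb p In) (hQ : Q ⊆ I) {x : E} (hx : In x)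
    (hF : Full f Q (p x)) {j : Fin n} (hj : j ∉ I) {θ : MulAut (FreeGroup (Fin n))}
    (hθ : θ ∈ Mv j) (hg : θ ∈ Gam gb) {e i : Fin n} (he : e ∈ I) (heQ : e ∉ Q) (hi : i ∈ I)
    (hiQ : i ∉ Q) (hie : i ≠ e) (hp : Pres e θ) : ∃ θ' ∈ MQ I Q, θ • x = θ' • x := by
  have hfb := hA.fb x hx
  have hfb' : Fb f gb (act θ (p x)) := Fb_act hg hfb
  obtain ⟨w, hw, hwG, hw2⟩ := R_exists hQ hA.one hF hj (hfb.1 j) (hfb'.1 j)
  have hej : e ≠ j := fun h => hj (h ▸ he)
  have hij : i ≠ j := fun h => hj (h ▸ hi)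
  have hact : act θ (p x) = act (R j w) (p x) := by
    rw [hw2]
    funext y
    by_cases hy : y = j
    · rw [hy, Function.update_self]
    · rw [Function.update_of_ne hy, Mv_act (p x) hy hθ]
  have hpR : Pres e (R j w) := by
    refine pres_of (R_of_ne hej _) fun y hy => ?_
    by_cases hyj : y = j
    · have hjQ : j ∉ Q := fun hm => hj (hQ hm)
      rw [hyj, R_of_self, kill_eq hw hjQ, map_mul, kill_eq hw heQ, kill_of_ne (Ne.symm hej)]
    · rw [R_of_ne hyj, kill_of_ne hy]
  refine ⟨R j w, (le_sup_right : _ ≤ MQ I Q) (Subgroup.subset_closure ⟨j, hj, w, hw, rfl⟩), ?_⟩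
  refine hA.qq j e i θ (R j w) x hx (Ne.symm hej) hie hij ?_ hθ (R_mem_Mv j w) hp hpR hact
  refine full_gen hA.gen hfb.1 hF ?_
  intro y hy
  rw [Finset.mem_compl, Finset.mem_insert, Finset.mem_singleton]
  rintro (h3 | h3)
  · rcases Finset.mem_union.1 hy with h5 | h5
    · exact Finset.mem_compl.1 h5 (h3 ▸ hi)
    · exact hiQ (h3 ▸ h5)
  · rcases Finset.mem_union.1 hy with h5 | h5
    · exact Finset.mem_compl.1 h5 (h3 ▸ he)
    · exact heQ (h3 ▸ h5)

end Sol

end RED
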