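import Pool.Agent.RED5.D5
import Pool.Agent.RED4.NSa
import Pool.Agent.RED4.NSb
import Pool.Agent.RED4.NSc
import Pool.Agent.RED.NS3

/-!
# Conjugation of the transported groups by good moves, the points over the tuples over `gb`
-/

set_option autoImplicit false

namespace RED

open AFn IAQ

namespace Sol

variable {n : ℕ} {G K : Type*} [Group G] [Group K]

private theorem ns5_rs (h : Fin n → G) (e : Fin n) : rs h {e} = Function.update h e 1 := by
  funext x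
  by_cases hx : x = e
  · subst hx
    rw [Function.update_self, rs, if_pos (Finset.mem_singleton_self x)]
  · rw [Function.update_of_ne hx, rs, if_neg (fun h1 => hx (Finset.mem_singleton.1 h1))]

private theorem ns5_conj_good {f : G →* K} {I : Finset (Fin n)} {gb : Fin n → K}
    (hH : HB f I gb) {h : Fin n → G} (hh : Fb f gb h) {s : MulAut (FreeGroup (Fin n))}
    (hs : Good I gb s) {ψ : MulAut (FreeGroup (Fin n))} (hψ : ψ ∈ NS h) :
    s * ψ * s⁻¹ ∈ NS (act s h) := by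
  obtain ⟨hsG, c, b, hsc, hpr⟩ := hs
  obtain ⟨e, heI, heb, hec, hge⟩ := hH.red h hh b c
  have hp : Pres e s := hpr e heI heb hec
  obtain ⟨t, ht⟩ := ns1_exists (Finset.singleton_nonempty e) hge
  have hrs : act s (rs h {e}) = rs (act s h) {e} := by
    rw [ns5_rs, ns5_rs, act_update hp]
  have ht' : Val (act s h) {e} (s * t * s⁻¹) := by
    refine ⟨Finset.singleton_nonempty e, Gen_pres hp hge, NConj.conj_MvS (fun y hy => ?_) ht.2.2.1,
      ?_⟩
    · rw [Finset.mem_singleton.1 hy]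
      exact hp
    · rw [← act_mul, inv_mul_cancel_right, act_mul, ht.2.2.2, hrs]
  refine mem_NS_of_p (hH.hl _ (Fb_act hsG hh)) ht' ?_
  have h2 : t * ψ * t⁻¹ ∈ NN (rs h {e}) := hψ {e} t ht
  have h3 := NN_conj_one (g := rs h {e}) hec (ns1_rs_mem (Finset.mem_singleton_self e)) hsc hp h2
  rw [hrs] at h3
  have e1 : s * t * s⁻¹ * (s * ψ * s⁻¹) * (s * t * s⁻¹)⁻¹ = s * (t * ψ * t⁻¹) * s⁻¹ := by group
  rw [e1]
  exact h3

theorem NS_conj_A5 {f : G →* K} {I : Finset (Fin n)} {gb : Fin n → K} (hH : HB f I gb)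
    {s : MulAut (FreeGroup (Fin n))}
    (hs : s ∈ Subgroup.closure {s | Good I gb s}) {h : Fin n → G} (hh : Fb f gb h)
    {ψ : MulAut (FreeGroup (Fin n))} (hψ : ψ ∈ NS h) :
    s * ψ * s⁻¹ ∈ NS (act s h) := by
  have key : s ∈ Gam gb ∧
      (∀ h : Fin n → G, Fb f gb h → ∀ ψ ∈ NS h, s * ψ * s⁻¹ ∈ NS (act s h)) ∧
      (∀ h : Fin n → G, Fb f gb h → ∀ ψ ∈ NS h, s⁻¹ * ψ * (s⁻¹)⁻¹ ∈ NS (act s⁻¹ h)) := by
    clear hψ hh ψ h
    induction hs using Subgroup.closure_induction with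
    | mem x hx =>
      refine ⟨hx.1, fun h hh ψ hψ => ns5_conj_good hH hh hx hψ,
        fun h hh ψ hψ => ns5_conj_good hH hh ?_ hψ⟩
      obtain ⟨hxG, c, b, hxc, hpr⟩ := hx
      exact ⟨(Gam gb).inv_mem hxG, c, b, (Mv c).inv_mem hxc,
        fun e he heb hec => Pres_inv (hpr e he heb hec)⟩
    | one =>
      refine ⟨(Gam gb).one_mem, fun h _ ψ hψ => ?_, fun h _ ψ hψ => ?_⟩
      · rw [act_one, inv_one, mul_one, one_mul]
        exact hψ
      · rw [inv_one, act_one, inv_one, mul_one, one_mul]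
        exact hψ
    | mul x y _ _ hx hy =>
      refine ⟨(Gam gb).mul_mem hx.1 hy.1, fun h hh ψ hψ => ?_, fun h hh ψ hψ => ?_⟩
      · have h2 := hx.2.1 _ (Fb_act hy.1 hh) _ (hy.2.1 h hh ψ hψ)
        rw [← act_mul] at h2
        have e : x * y * ψ * (x * y)⁻¹ = x * (y * ψ * y⁻¹) * x⁻¹ := by group
        rw [e]
        exact h2
      · have h2 := hy.2.2 _ (Fb_act ((Gam gb).inv_mem hx.1) hh) _ (hx.2.2 h hh ψ hψ)
        rw [← act_mul] at h2
        have e : (x * y)⁻¹ * ψ * ((x * y)⁻¹)⁻¹ = y⁻¹ * (x⁻¹ * ψ * (x⁻¹)⁻¹) * (y⁻¹)⁻¹ := by group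
        rw [e, mul_inv_rev]
        exact h2
    | inv x _ hx =>
      refine ⟨(Gam gb).inv_mem hx.1, hx.2.2, ?_⟩
      rw [inv_inv]
      exact hx.2.1
  exact key.2.1 h hh ψ hψ

theorem FB_quot {f : G →* K} {I : Finset (Fin n)} {gb : Fin n → K} {g : Fin n → G}
    (hH : HB f I gb) (hI : I.Nonempty) (h1 : ∀ i ∈ I, gb i = 1) (hgb : Gen gb Iᶜ)
    (hg : Fb f gb g) (hA : Gam gb ≤ Subgroup.closure {s | Good I gb s}) :
    ∃ (p : (MulAut (FreeGroup (Fin n)) ⧸ NS g) → Fin n → G)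
      (In : (MulAut (FreeGroup (Fin n)) ⧸ NS g) → Prop),
      FB f I gb p In ∧ In ((1 : MulAut (FreeGroup (Fin n))) : MulAut (FreeGroup (Fin n)) ⧸ NS g) ∧
        p ((1 : MulAut (FreeGroup (Fin n))) : MulAut (FreeGroup (Fin n)) ⧸ NS g) = g := by
  classical
  obtain ⟨i0, hi0⟩ := hI
  obtain ⟨e0, -, -, -, he0⟩ := hH.red g hg i0 i0
  have hHG : NS g ≤ Gam g := NS_le_Gam_p he0
  -- the projection to the tuples
  let p : (MulAut (FreeGroup (Fin n)) ⧸ NS g) → Fin n → G :=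
    fun x => Quotient.liftOn' x (fun φ => act φ g) (by
      intro a b hab
      have h := QuotientGroup.leftRel_apply.1 hab
      have h' := mem_Gam_iff.1 (hHG h)
      show act a g = act b g
      have h3 : act a (act (a⁻¹ * b) g) = act a g := by rw [h']
      rw [← act_mul, mul_inv_cancel_left] at h3
      exact h3.symm)
  have hp : ∀ φ : MulAut (FreeGroup (Fin n)),
      p (φ : MulAut (FreeGroup (Fin n)) ⧸ NS g) = act φ g := fun φ => rfl
  have hps : ∀ (θ : MulAut (FreeGroup (Fin n))) (x : MulAut (FreeGroup (Fin n)) ⧸ NS g),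
      p (θ • x) = act θ (p x) := by
    intro θ x
    induction x using QuotientGroup.induction_on with
    | H φ => rw [MulAction.Quotient.smul_coe, hp, hp, smul_eq_mul, act_mul]
  let In : (MulAut (FreeGroup (Fin n)) ⧸ NS g) → Prop :=
    fun x => ∃ φ : MulAut (FreeGroup (Fin n)), φ ∈ Gam gb ∧
      x = (φ : MulAut (FreeGroup (Fin n)) ⧸ NS g)
  have hfb : ∀ x, In x → Fb f gb (p x) := by
    rintro x ⟨φ, hφ, rfl⟩
    rw [hp]
    exact Fb_act hφ hg
  have hinn : ∀ θ ∈ Gam gb, ∀ x, In x → In (θ • x) := by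
    rintro θ hθ x ⟨φ, hφ, rfl⟩
    exact ⟨θ * φ, Subgroup.mul_mem _ hθ hφ, by rw [MulAction.Quotient.smul_coe, smul_eq_mul]⟩
  -- the elements of `NS` fix the point
  have K1 : ∀ (θ : MulAut (FreeGroup (Fin n))) (x : MulAut (FreeGroup (Fin n)) ⧸ NS g),
      In x → θ ∈ NS (p x) → θ • x = x := by
    rintro θ x ⟨φ, hφ, rfl⟩ hθ
    rw [MulAction.Quotient.smul_coe, smul_eq_mul]
    refine QuotientGroup.eq.2 ?_
    rw [hp] at hθ
    have h := NS_conj_A5 hH (hA ((Gam gb).inv_mem hφ)) (Fb_act hφ hg)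
      ((NS (act φ g)).inv_mem hθ)
    rw [act_inv_act, inv_inv] at h
    rwa [mul_inv_rev]
  refine ⟨p, In, ⟨h1, hgb, hps, hfb, hinn, ?_, ?_⟩, ⟨1, Subgroup.one_mem _, rfl⟩, ?_⟩
  · intro Y θ θ' x hx hY hθ hθ' he
    have h := K1 (θ'⁻¹ * θ) x hx (NS_lemY_p (hH.hl _ (hfb x hx)) Y hY
      (Subgroup.mul_mem _ (Subgroup.inv_mem _ hθ') hθ) (by
        rw [mem_Gam_iff, act_mul, he, act_inv_act]))
    rwa [mul_smul, inv_smul_eq_iff] at h
  · intro j e i θ θ' x hx hje hie hij hG hθ hθ' hq hq' he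
    have h := K1 (θ'⁻¹ * θ) x hx (lemQ (hH.hl _ (hfb x hx)) hje hie hij hG
      (Mv_le_MvS (Finset.mem_insert_self _ _) (Subgroup.mul_mem _ (Subgroup.inv_mem _ hθ') hθ))
      (by rw [mem_Gam_iff, act_mul, he, act_inv_act]) (Pres_mul (Pres_inv hq') hq))
    rwa [mul_smul, inv_smul_eq_iff] at h
  · rw [hp, act_one]

end Sol

end RED
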