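import Pool.Agent.RED5.KBb
import Pool.Agent.RED5.MQb
import Pool.Agent.RED5.MQc

/-!
# Paths: basic facts and uniqueness
-/

set_option autoImplicit false

namespace RED

open AFn IAQ

namespace Sol

variable {n : ℕ} {G K : Type*} [Group G] [Group K]
  {E : Type*} [MulAction (MulAut (FreeGroup (Fin n))) E] {f : G →* K} {I : Finset (Fin n)}
  {gb : Fin n → K} {p : E → Fin n → G} {In : E → Prop} {l : ℕ}
  {τ : Finset (Fin n) → Fin n → G} {x0 : E}

theorem in_of_act (hA : FB f I gb p In) {x : E} (hx : In x) {θ : MulAut (FreeGroup (Fin n))}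
    (h : ∀ a, f (p (θ • x) a) = gb a) : θ ∈ Gam gb ∧ In (θ • x) := by
  have h1 : θ ∈ Gam gb := by
    rw [mem_Gam_iff]
    funext a
    have h2 : f (act θ (p x) a) = act θ gb a := factb_map_ev (hA.fb x hx).1 _
    rw [← h2, ← hA.ps, h a]
  exact ⟨h1, hA.inn θ h1 x hx⟩

theorem MvS_fix {Y : Finset (Fin n)} {ψ : MulAut (FreeGroup (Fin n))} (hψ : ψ ∈ MvS Y)
    (h : Fin n → G) {a : Fin n} (ha : a ∉ Y) : act ψ h a = h a := by
  have key : ∀ φ ∈ MvS Y, φ (FreeGroup.of a) = FreeGroup.of a := by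
    intro φ hφ
    unfold MvS at hφ
    induction hφ using Subgroup.closure_induction with
    | mem y hy =>
      obtain ⟨c, hc, hy⟩ := hy
      have hxc : a ≠ c := by
        rintro rfl
        exact ha hc
      exact Mv_fix hxc hy
    | one => rfl
    | mul y z _ _ hy hz => rw [MulAut.mul_apply, hz, hy]
    | inv y _ hy =>
      have h1 : y⁻¹ (y (FreeGroup.of a)) = FreeGroup.of a := by
        rw [← MulAut.mul_apply, inv_mul_cancel, MulAut.one_apply]
      rwa [hy] at h1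
  show ev h (ψ⁻¹ (FreeGroup.of a)) = h a
  rw [key _ ((MvS Y).inv_mem hψ), ev_of]

theorem Gen_congr5 {h h' : Fin n → G} {S : Finset (Fin n)} (he : ∀ a ∈ S, h a = h' a)
    (hG : Gen h S) : Gen h' S :=
  Gen_congr he hG

theorem Full_congr {Q : Finset (Fin n)} {h h' : Fin n → G} (he : ∀ a ∈ Q, h a = h' a)
    (hF : Full f Q h) : Full f Q h' := by
  intro x hx
  have h1 : h' '' (Q : Set (Fin n)) = h '' (Q : Set (Fin n)) :=
    Set.image_congr (fun a ha => (he a (Finset.mem_coe.1 ha)).symm)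
  rw [h1]
  exact hF x hx

theorem gen0 (hB : Bs f I gb p In l τ x0) : Gen (p x0) Iᶜ := by
  refine gen_of_one (hB.fb.fb x0 hB.in0).2 (fun i _ hi => hB.one0 i ?_)
  rw [Finset.mem_compl, not_not] at hi
  exact hi

theorem Pt_uniq (hB : Bs f I gb p In l τ x0) {Q : Finset (Fin n)} (hQ : Q ⊆ I)
    (hc : Q.card = l) {z z' : E} (hz : Pt f I gb p In τ x0 Q z)
    (hz' : Pt f I gb p In τ x0 Q z') (h : p z = p z') : z = z' := by
  obtain ⟨ψ, hψ, θ, hθ, ψ', hψ', hzd, h1, h2, h3, h4⟩ := hz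
  obtain ⟨χ, hχ, ξ, hξ, χ', hχ', hzd', k1, k2, k3, k4⟩ := hz'
  have hA := hB.fb
  have hG0 : Gen (p x0) Qᶜ := Gen_mono (Finset.compl_subset_compl.2 hQ) (gen0 hB)
  -- the first moves lead to the same point
  have hx : ψ • x0 = χ • x0 :=
    hA.red Q ψ χ x0 hB.in0 hG0 hψ hχ (by rw [← hA.ps, ← hA.ps, h1, k1])
  rw [← hx] at hzd' k1 k2
  have hin : In (ψ • x0) := by
    refine (in_of_act hA hB.in0 (fun a => ?_)).2
    rw [h1]
    by_cases ha : a ∈ Q
    · rw [upd_of_mem ha, hB.tau, hA.one a (hQ ha)]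
    · rw [upd_of_notMem ha]
      exact (hA.fb x0 hB.in0).1 a
  have hFull : Full f Q (p (ψ • x0)) := by
    refine Full_congr (fun a ha => ?_) (hB.full Q hc)
    rw [h1, upd_of_mem ha]
  obtain ⟨x, hxd⟩ : ∃ x, x = ψ • x0 := ⟨_, rfl⟩
  rw [← hxd] at hzd hzd' k1 k2 h1 h2 hin hFull
  -- the second moves lead to the same tuple
  have hpy : ∀ a, a ∉ Q → p z a = p (θ • x) a := by
    intro a ha
    rw [hzd, hA.ps ψ', MvS_fix hψ' _ ha]
  have hpy' : ∀ a, a ∉ Q → p z' a = p (ξ • x) a := by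
    intro a ha
    rw [hzd', hA.ps χ', MvS_fix hχ' _ ha]
  have heq : p (θ • x) = p (ξ • x) := by
    funext a
    by_cases ha : a ∈ Q
    · rw [hA.ps, hA.ps, MQ_fix hQ hθ _ ha, MQ_fix hQ hξ _ ha]
    · rw [← hpy a ha, ← hpy' a ha, h]
  have hcard : 2 ≤ (I \ Q).card := by
    have h5 := Finset.card_sdiff_add_card_eq_card hQ
    have h6 := hB.lg.2
    omega
  have hy : θ • x = ξ • x :=
    MQ_uniq hA hQ hcard hin hFull hθ hξ (by rw [← hA.ps, ← hA.ps, heq])
  have hiny : In (θ • x) := (in_of_act hA hin h2).2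
  have hgy : Gen (p (θ • x)) Qᶜ :=
    Gen_congr5 (fun a ha => hpy a (Finset.mem_compl.1 ha)) h4
  rw [hzd, hzd', ← hy]
  refine hA.red Q ψ' χ' (θ • x) hiny hgy hψ' hχ' ?_
  rw [← hA.ps, ← hA.ps, ← hzd, h, hzd', ← hy]

end Sol

end RED
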