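import Pool.Agent.RED5.CM5

/-!
# Paths of two disjoint types
-/

set_option autoImplicit false

namespace RED

open AFn IAQ

namespace Sol

variable {n : ℕ} {G K : Type*} [Group G] [Group K]
  {E : Type*} [MulAction (MulAut (FreeGroup (Fin n))) E] {f : G →* K} {I : Finset (Fin n)}
  {gb : Fin n → K} {p : E → Fin n → G} {In : E → Prop} {l : ℕ}
  {τ : Finset (Fin n) → Fin n → G} {x0 : E}

theorem Pt_disj (hB : Bs f I gb p In l τ x0) {Q Q' : Finset (Fin n)} (hQ : Q ⊆ I)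
    (hQ' : Q' ⊆ I) (hc : Q.card = l) (hc' : Q'.card = l) (hd : Disjoint Q Q') {z : E}
    (hz : Pt f I gb p In τ x0 Q z) (hG : Gen (p z) (Q ∪ Q')ᶜ) :
    Pt f I gb p In τ x0 Q' z := by
  have hA := hB.fb
  obtain ⟨ψ, hψ, θ, hθ, ψ', hψ', hz1, hz2, hz3, hIz, hGz⟩ := hz
  -- combinatorics
  have hnm : ∀ a ∈ Q, a ∉ Q' := fun a h h' => Finset.disjoint_left.1 hd h h'
  have hnm' : ∀ a ∈ Q', a ∉ Q := fun a h' h => Finset.disjoint_left.1 hd h h'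
  have hs1 : Q' ⊆ I \ Q := fun a h => Finset.mem_sdiff.2 ⟨hQ' h, hnm' a h⟩
  have hs2 : Q ⊆ I \ Q' := fun a h => Finset.mem_sdiff.2 ⟨hQ h, hnm a h⟩
  have hs3 : Iᶜ ∪ Q ⊆ Q'ᶜ := by
    intro a ha
    rw [Finset.mem_compl]
    rcases Finset.mem_union.1 ha with h | h
    · exact fun h' => (Finset.mem_compl.1 h) (hQ' h')
    · exact hnm a h
  have hs4 : Iᶜ ∪ Q' ⊆ Qᶜ := by
    intro a ha
    rw [Finset.mem_compl]
    rcases Finset.mem_union.1 ha with h | h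
    · exact fun h' => (Finset.mem_compl.1 h) (hQ h')
    · exact hnm' a h
  have hs5 : Iᶜ ⊆ (Q ∪ Q')ᶜ := by
    rw [Finset.compl_subset_compl]
    exact Finset.union_subset hQ hQ'
  have hs6 : (Q ∪ Q')ᶜ ⊆ Q'ᶜ := by
    rw [Finset.compl_subset_compl]
    exact Finset.subset_union_right
  have hMQ : MvS Q' ≤ MQ I Q := (MvS_mono hs1).trans le_sup_left
  have hMQ' : MvS Q ≤ MQ I Q' := (MvS_mono hs2).trans le_sup_left
  have hl := hB.lg
  have hcard : 2 ≤ (I \ Q).card := by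
    rw [Finset.card_sdiff_of_subset hQ, hc]
    have h1 := hl.1
    have h2 := hl.2
    omega
  -- values over `gb`
  have hup : ∀ (h : Fin n → G) (Y : Finset (Fin n)) (σ : Fin n → G), (∀ a, f (h a) = gb a) →
      (∀ a ∈ Y, f (σ a) = gb a) → ∀ a, f (upd h Y σ a) = gb a := by
    intro h Y σ h1 h2 a
    by_cases ha : a ∈ Y
    · rw [upd_of_mem ha, h2 a ha]
    · rw [upd_of_notMem ha, h1 a]
  have htau : ∀ Y : Finset (Fin n), Y ⊆ I → ∀ a ∈ Y, f (τ Y a) = gb a := by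
    intro Y hY a ha
    rw [hB.tau, hA.one a (hY ha)]
  have hf0 : ∀ a, f (p x0 a) = gb a := (hA.fb x0 hB.in0).1
  have hfz : ∀ a, f (p z a) = gb a := (hA.fb z hIz).1
  have hg0 := gen0 hB
  -- the point `xQ`
  have hfQ : ∀ a, f (p (ψ • x0) a) = gb a := by
    rw [hz2]
    exact hup _ _ _ hf0 (htau Q hQ)
  have hIQ : In (ψ • x0) := (in_of_act hA hB.in0 hfQ).2
  have hQv : ∀ a ∈ Q, τ Q a = p (ψ • x0) a := fun a ha => by rw [hz2, upd_of_mem ha]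
  have hFQ : Full f Q (p (ψ • x0)) := Full_congr hQv (hB.full Q hc)
  -- the point `y`
  have hy : p (θ • ψ • x0) = upd (p z) Q (τ Q) := by
    funext a
    by_cases ha : a ∈ Q
    · rw [upd_of_mem ha, hA.ps, MQ_fix hQ hθ _ ha, hQv a ha]
    · rw [upd_of_notMem ha, hz1, hA.ps ψ', MvS_fix hψ' _ ha]
  -- the second way to the point with the letters of `Q ∪ Q'`
  obtain ⟨ξ, hξ, hξ1⟩ := exists_upd (full_gen hA.gen hfQ hFQ hs3) (τ Q')
  obtain ⟨ψ2, hψ2, hψ21⟩ := exists_upd (Gen_mono (hs5.trans hs6) hg0) (τ Q')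
  have hx2 : p (ψ2 • x0) = upd (p x0) Q' (τ Q') := by rw [hA.ps, hψ21]
  have hf2 : ∀ a, f (p (ψ2 • x0) a) = gb a := by
    rw [hx2]
    exact hup _ _ _ hf0 (htau Q' hQ')
  have hQv' : ∀ a ∈ Q', τ Q' a = p (ψ2 • x0) a := fun a ha => by rw [hx2, upd_of_mem ha]
  have hF2 : Full f Q' (p (ψ2 • x0)) := Full_congr hQv' (hB.full Q' hc')
  obtain ⟨ξ2, hξ2, hξ21⟩ := exists_upd (full_gen hA.gen hf2 hF2 hs4) (τ Q)
  have hyb : p (ξ • ψ • x0) = upd (upd (p x0) Q (τ Q)) Q' (τ Q') := by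
    rw [hA.ps, hξ1, hz2]
  have hyb2 : p (ξ2 • ψ2 • x0) = upd (upd (p x0) Q' (τ Q')) Q (τ Q) := by
    rw [hA.ps, hξ21, hx2]
  have hcomm : ∀ (h σ σ' : Fin n → G), upd (upd h Q σ) Q' σ' = upd (upd h Q' σ') Q σ := by
    intro h σ σ'
    funext a
    by_cases ha : a ∈ Q
    · rw [upd_of_notMem (hnm a ha), upd_of_mem ha, upd_of_mem ha]
    · by_cases ha' : a ∈ Q'
      · rw [upd_of_mem ha', upd_of_notMem ha, upd_of_mem ha']
      · rw [upd_of_notMem ha', upd_of_notMem ha, upd_of_notMem ha, upd_of_notMem ha']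
  have hQQ : MvS Q ≤ MvS (Q ∪ Q') := MvS_mono Finset.subset_union_left
  have hQQ' : MvS Q' ≤ MvS (Q ∪ Q') := MvS_mono Finset.subset_union_right
  have heq : ξ • ψ • x0 = ξ2 • ψ2 • x0 := by
    rw [← mul_smul, ← mul_smul]
    refine hA.red (Q ∪ Q') _ _ x0 hB.in0 (Gen_mono hs5 hg0)
      ((MvS (Q ∪ Q')).mul_mem (hQQ' hξ) (hQQ hψ)) ((MvS (Q ∪ Q')).mul_mem (hQQ hξ2) (hQQ' hψ2)) ?_
    rw [← hA.ps, ← hA.ps, mul_smul, mul_smul, hyb, hyb2, hcomm]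
  have hfb : ∀ a, f (p (ξ • ψ • x0) a) = gb a := by
    rw [hyb]
    exact hup _ _ _ (hup _ _ _ hf0 (htau Q hQ)) (htau Q' hQ')
  have hIb : In (ξ • ψ • x0) := (in_of_act hA hIQ hfb).2
  -- the common move
  obtain ⟨k, hk⟩ : ∃ k, k = upd (upd (p z) Q (τ Q)) Q' (τ Q') := ⟨_, rfl⟩
  have hfk : ∀ a, f (k a) = gb a := by
    rw [hk]
    exact hup _ _ _ (hup _ _ _ hfz (htau Q hQ)) (htau Q' hQ')
  have hk1 : ∀ a ∈ Q, τ Q a = k a := by
    intro a ha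
    rw [hk, upd_of_notMem (hnm a ha), upd_of_mem ha]
  have hk2 : ∀ a ∈ Q', τ Q' a = k a := by
    intro a ha
    rw [hk, upd_of_mem ha]
  have hk3 : ∀ a, a ∉ Q → a ∉ Q' → k a = p z a := by
    intro a ha ha'
    rw [hk, upd_of_notMem ha', upd_of_notMem ha]
  have hb1 : ∀ a ∈ Q, τ Q a = p (ξ • ψ • x0) a := by
    intro a ha
    rw [hyb, upd_of_notMem (hnm a ha), upd_of_mem ha]
  have hb2 : ∀ a ∈ Q', τ Q' a = p (ξ • ψ • x0) a := by
    intro a ha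
    rw [hyb, upd_of_mem ha]
  have hFk : Full f Q k := Full_congr hk1 (hB.full Q hc)
  have hFk' : Full f Q' k := Full_congr hk2 (hB.full Q' hc')
  obtain ⟨θ1, hθ1, θ1', hθ1', he1, he2⟩ := common_move hB hQ hQ' hc hc' hd hIb
    (Full_congr hb1 (hB.full Q hc)) (Full_congr hb2 (hB.full Q' hc')) hfk
    (fun a ha => by rw [← hk1 a ha, hb1 a ha]) (fun a ha => by rw [← hk2 a ha, hb2 a ha])
  obtain ⟨yk, hyk⟩ : ∃ yk, yk = θ1 • ξ • ψ • x0 := ⟨_, rfl⟩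
  have hpk : p yk = k := by rw [hyk, hA.ps, he2]
  have hIk : In yk := by
    rw [hyk]
    refine (in_of_act hA hIb ?_).2
    rw [← hyk, hpk]
    exact hfk
  -- back to `y`
  obtain ⟨ζ, hζ, hζ1⟩ := exists_upd (full_gen hA.gen hfk hFk hs3) (p z)
  have hζ2 : upd k Q' (p z) = p (θ • ψ • x0) := by
    rw [hy]
    funext a
    by_cases ha' : a ∈ Q'
    · rw [upd_of_mem ha', upd_of_notMem (hnm' a ha')]
    · rw [upd_of_notMem ha']
      by_cases ha : a ∈ Q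
      · rw [upd_of_mem ha, hk1 a ha]
      · rw [upd_of_notMem ha, hk3 a ha ha']
  have hyy : ζ • yk = θ • ψ • x0 := by
    have h1 : (ζ * θ1 * ξ) • ψ • x0 = θ • ψ • x0 := by
      refine MQ_uniq hA hQ hcard hIQ hFQ
        ((MQ I Q).mul_mem ((MQ I Q).mul_mem (hMQ hζ) hθ1) (hMQ hξ)) hθ ?_
      rw [← hA.ps, ← hA.ps, mul_smul, mul_smul, ← hyk, hA.ps, hpk, hζ1, hζ2]
    rw [← h1, hyk, mul_smul, mul_smul]
  -- the other path
  obtain ⟨ζ2, hζ2m, hζ21⟩ := exists_upd (full_gen hA.gen hfk hFk' hs4) (p z)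
  have hy' : p (ζ2 • yk) = upd (p z) Q' (τ Q') := by
    rw [hA.ps, hpk, hζ21]
    funext a
    by_cases ha : a ∈ Q
    · rw [upd_of_mem ha, upd_of_notMem (hnm a ha)]
    · rw [upd_of_notMem ha]
      by_cases ha' : a ∈ Q'
      · rw [upd_of_mem ha', hk2 a ha']
      · rw [upd_of_notMem ha', hk3 a ha ha']
  have hGz' : Gen (p z) Q'ᶜ := Gen_mono hs6 hG
  have hGy : Gen (p (ζ2 • yk)) Q'ᶜ := by
    refine Gen_congr5 (fun a ha => ?_) hGz'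
    rw [hy', upd_of_notMem (Finset.mem_compl.1 ha)]
  obtain ⟨ψ3, hψ3, hψ31⟩ := exists_upd hGy (p z)
  have hψ32 : act ψ3 (p (ζ2 • yk)) = p z := by
    rw [hψ31, hy']
    funext a
    by_cases ha' : a ∈ Q'
    · rw [upd_of_mem ha']
    · rw [upd_of_notMem ha', upd_of_notMem ha']
  have hGk : Gen (p yk) (Q ∪ Q')ᶜ := by
    refine Gen_congr5 (fun a ha => ?_) hG
    rw [Finset.mem_compl, Finset.mem_union, not_or] at ha
    rw [hpk, hk3 a ha.1 ha.2]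
  have hzk : z = ψ3 • ζ2 • yk := by
    have h1 : (ψ' * ζ) • yk = (ψ3 * ζ2) • yk := by
      refine hA.red (Q ∪ Q') _ _ yk hIk hGk ((MvS (Q ∪ Q')).mul_mem (hQQ hψ') (hQQ' hζ))
        ((MvS (Q ∪ Q')).mul_mem (hQQ' hψ3) (hQQ hζ2m)) ?_
      rw [← hA.ps, ← hA.ps, mul_smul, mul_smul, hyy, ← hz1, hA.ps ψ3, hψ32]
    rw [← mul_smul, ← h1, mul_smul, hyy, ← hz1]
  have hyk2 : ζ2 • yk = (ζ2 * θ1' * ξ2) • ψ2 • x0 := by
    rw [mul_smul, mul_smul, ← heq, ← he1, ← hyk]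
  refine ⟨ψ2, hψ2, ζ2 * θ1' * ξ2, ?_, ψ3, hψ3, ?_, hx2, ?_, hIz, hGz'⟩
  · exact (MQ I Q').mul_mem ((MQ I Q').mul_mem (hMQ' hζ2m) hθ1') (hMQ' hξ2)
  · rw [← hyk2, ← hzk]
  · rw [← hyk2, hy']
    exact hup _ _ _ hfz (htau Q' hQ')

end Sol

end RED
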