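import Pool.Agent.RED5.SecB5

/-!
# Paths: independence of the type
-/

set_option autoImplicit false

namespace RED

open AFn IAQ

namespace Sol

variable {n : ℕ} {G K : Type*} [Group G] [Group K]
  {E : Type*} [MulAction (MulAut (FreeGroup (Fin n))) E] {f : G →* K} {I : Finset (Fin n)}
  {gb : Fin n → K} {p : E → Fin n → G} {In : E → Prop} {l : ℕ}
  {τ : Finset (Fin n) → Fin n → G} {x0 : E}

theorem Pt_conn (hB : Bs f I gb p In l τ x0) {C : Finset (Fin n)} (hC : C ⊆ I)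
    (hCc : 2 * l + 1 ≤ C.card) {z : E} (hG : Gen (p z) Cᶜ) (N : ℕ) :
    ∀ Q Q' : Finset (Fin n), Q ⊆ C → Q' ⊆ C → Q.card = l → Q'.card = l →
      (Q' \ Q).card = N → Pt f I gb p In τ x0 Q z → Pt f I gb p In τ x0 Q' z := by
  induction N with
  | zero =>
    intro Q Q' _ _ hc hc' h0 hz
    have h1 : Q' ⊆ Q := Finset.sdiff_eq_empty_iff_subset.1 (Finset.card_eq_zero.1 h0)
    have h2 : Q' = Q := Finset.eq_of_subset_of_card_le h1 (by omega)
    rw [h2]
    exact hz
  | succ N ih =>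
    intro Q Q' hQ hQ' hc hc' hN hz
    obtain ⟨b, hb⟩ : (Q' \ Q).Nonempty := by
      rw [← Finset.card_pos]
      omega
    have hcard : (Q \ Q').card = (Q' \ Q).card := by
      have h1 := Finset.card_sdiff_add_card_inter Q Q'
      have h2 := Finset.card_sdiff_add_card_inter Q' Q
      rw [Finset.inter_comm Q' Q] at h2
      omega
    obtain ⟨a, ha⟩ : (Q \ Q').Nonempty := by
      rw [← Finset.card_pos]
      omega
    rw [Finset.mem_sdiff] at ha hb
    obtain ⟨Qs, hQs⟩ : ∃ Qs, Qs = insert b (Q.erase a) := ⟨_, rfl⟩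
    have hQsC : Qs ⊆ C := by
      rw [hQs]
      exact Finset.insert_subset (hQ' hb.1) ((Finset.erase_subset a Q).trans hQ)
    have hQsc : Qs.card = l := by
      rw [hQs, Finset.card_insert_of_notMem (fun h => hb.2 (Finset.mem_of_mem_erase h)),
        Finset.card_erase_of_mem ha.1]
      have := Finset.card_pos.2 ⟨a, ha.1⟩
      omega
    have hsd : (Q' \ Qs).card = N := by
      have h1 : Q' \ Qs = (Q' \ Q).erase b := by
        ext x
        simp only [hQs, Finset.mem_sdiff, Finset.mem_insert, Finset.mem_erase, not_or, not_and]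
        constructor
        · rintro ⟨hx, hxb, hxa⟩
          refine ⟨hxb, hx, ?_⟩
          exact hxa (fun h => ha.2 (h ▸ hx))
        · rintro ⟨hxb, hx, hxQ⟩
          exact ⟨hx, hxb, fun _ => hxQ⟩
      rw [h1, Finset.card_erase_of_mem (Finset.mem_sdiff.2 hb), hN]
      rfl
    obtain ⟨Q0, hQ0, hQ0c⟩ : ∃ Q0 ⊆ C \ insert b Q, Q0.card = l := by
      refine Finset.exists_subset_card_eq ?_
      have h1 := Finset.le_card_sdiff (insert b Q) C
      have h2 := Finset.card_insert_le b Q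
      omega
    have hQ0C : Q0 ⊆ C := hQ0.trans Finset.sdiff_subset
    have hnot : ∀ x ∈ Q0, x ≠ b ∧ x ∉ Q := by
      intro x hx
      have h1 := (Finset.mem_sdiff.1 (hQ0 hx)).2
      rw [Finset.mem_insert, not_or] at h1
      exact h1
    have hd1 : Disjoint Q Q0 := by
      rw [Finset.disjoint_left]
      intro x hx hx0
      exact (hnot x hx0).2 hx
    have hd2 : Disjoint Q0 Qs := by
      rw [Finset.disjoint_left]
      intro x hx0 hx
      rw [hQs, Finset.mem_insert] at hx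
      rcases hx with hx | hx
      · exact (hnot x hx0).1 hx
      · exact (hnot x hx0).2 (Finset.mem_of_mem_erase hx)
    have hG1 : Gen (p z) (Q ∪ Q0)ᶜ :=
      Gen_mono (Finset.compl_subset_compl.2 (Finset.union_subset hQ hQ0C)) hG
    have hG2 : Gen (p z) (Q0 ∪ Qs)ᶜ :=
      Gen_mono (Finset.compl_subset_compl.2 (Finset.union_subset hQ0C hQsC)) hG
    have hz1 := Pt_disj hB (hQ.trans hC) (hQ0C.trans hC) hc hQ0c hd1 hz hG1
    have hz2 := Pt_disj hB (hQ0C.trans hC) (hQsC.trans hC) hQ0c hQsc hd2 hz1 hG2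
    exact ih Qs Q' hQsC hQ' hQsc hc' hsd hz2

theorem Pt_indep (hB : Bs f I gb p In l τ x0) {Q Q' : Finset (Fin n)} (hQ : Q ⊆ I)
    (hQ' : Q' ⊆ I) (hc : Q.card = l) (hc' : Q'.card = l) {z : E}
    (hz : Pt f I gb p In τ x0 Q z) (hG : Gen (p z) Q'ᶜ) : Pt f I gb p In τ x0 Q' z := by
  have hlg : 3 * l + 2 ≤ I.card := hB.lg.2
  obtain ⟨hIn, hGQ⟩ : In z ∧ Gen (p z) Qᶜ := by
    obtain ⟨_, _, _, _, _, _, _, _, _, h1, h2⟩ := hz
    exact ⟨h1, h2⟩
  have hh : ∀ x, f (p z x) = gb x := (hB.fb.fb z hIn).1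
  obtain ⟨M, hM, hMc, hMG⟩ := kb_gen hB.kb hB.fb.one hh hGQ
  obtain ⟨M', hM', hMc', hMG'⟩ := kb_gen hB.kb hB.fb.one hh hG
  obtain ⟨Q1, hQ1, hQ1c⟩ : ∃ Q1 ⊆ I \ (M ∪ M'), Q1.card = l := by
    refine Finset.exists_subset_card_eq ?_
    have h1 := Finset.le_card_sdiff (M ∪ M') I
    have h2 := Finset.card_union_le M M'
    omega
  have hcomp : ∀ (P R : Finset (Fin n)), (I ∪ P)ᶜ ∪ R ⊆ (I \ R)ᶜ := by
    intro P R x hx
    rw [Finset.mem_compl, Finset.mem_sdiff, not_and, not_not]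
    rw [Finset.mem_union, Finset.mem_compl, Finset.mem_union, not_or] at hx
    intro hxI
    rcases hx with hx | hx
    · exact absurd hxI hx.1
    · exact hx
  have hsub : ∀ (P R : Finset (Fin n)), P ⊆ I → R ⊆ I \ P → P ⊆ I \ R := by
    intro P R hP hR x hx
    exact Finset.mem_sdiff.2 ⟨hP hx, fun h => (Finset.mem_sdiff.1 (hR h)).2 hx⟩
  have hcard : ∀ R : Finset (Fin n), R.card ≤ l → 2 * l + 1 ≤ (I \ R).card := by
    intro R hR
    have h1 := Finset.le_card_sdiff R I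
    omega
  have hQ1M : Q1 ⊆ I \ M := hQ1.trans (Finset.sdiff_subset_sdiff le_rfl Finset.subset_union_left)
  have hQ1M' : Q1 ⊆ I \ M' :=
    hQ1.trans (Finset.sdiff_subset_sdiff le_rfl Finset.subset_union_right)
  have hz1 := Pt_conn hB Finset.sdiff_subset (hcard M hMc) (hMG _ (hcomp Q M)) _ Q Q1
    (hsub Q M hQ hM) hQ1M hc hQ1c rfl hz
  exact Pt_conn hB Finset.sdiff_subset (hcard M' hMc') (hMG' _ (hcomp Q' M')) _ Q1 Q'
    hQ1M' (hsub Q' M' hQ' hM') hQ1c hc' rfl hz1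

end Sol

end RED
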