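import Pool.Agent.RED5.SecA5
import Pool.Agent.RED.NS3

/-!
# Paths and good moves
-/

set_option autoImplicit false

namespace RED

open AFn IAQ

namespace Sol

variable {n : ℕ} {G K : Type*} [Group G] [Group K]
  {E : Type*} [MulAction (MulAut (FreeGroup (Fin n))) E] {f : G →* K} {I : Finset (Fin n)}
  {gb : Fin n → K} {p : E → Fin n → G} {In : E → Prop} {l : ℕ}
  {τ : Finset (Fin n) → Fin n → G} {x0 : E}

private theorem sd_kill_fsub {e : Fin n} {S : Finset (Fin n)} {u : FreeGroup (Fin n)}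
    (hu : u ∈ fsub S) : kill e u ∈ fsub (S.erase e) := by
  have h1 : fsub S ≤ (fsub (S.erase e)).comap (kill e) := by
    nth_rewrite 1 [fsub]
    rw [Subgroup.closure_le]
    rintro _ ⟨x, hx, rfl⟩
    change kill e (FreeGroup.of x) ∈ fsub (S.erase e)
    by_cases hxe : x = e
    · rw [hxe, kill_of_self]
      exact Subgroup.one_mem _
    · rw [kill_of_ne hxe]
      exact of_mem_fsub (Finset.mem_erase.2 ⟨hxe, hx⟩)
  exact h1 hu

private theorem sd_mem {Q : Finset (Fin n)} {u : FreeGroup (Fin n)}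
    (h : ∀ e ∈ Q, kill e u = u) : u ∈ fsub Qᶜ := by
  classical
  induction Q using Finset.induction_on with
  | empty =>
    rw [Finset.compl_empty]
    exact NConj.mem_fu u
  | insert e Q he ih =>
    have h1 := ih (fun x hx => h x (Finset.mem_insert_of_mem hx))
    have h2 := sd_kill_fsub (e := e) h1
    rw [h e (Finset.mem_insert_self _ _)] at h2
    rw [Finset.compl_insert]
    exact h2

theorem Gen_presS {s : MulAut (FreeGroup (Fin n))} {Q : Finset (Fin n)}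
    (hp : ∀ e ∈ Q, Pres e s) {h : Fin n → G} (hg : Gen h Qᶜ) : Gen (act s h) Qᶜ := by
  intro k
  obtain ⟨w, hw, hk⟩ := hg k
  refine ⟨s w, sd_mem (fun e he => ?_), ?_⟩
  · exact Pres.killed (hp e he) (kill_eq hw (fun h' => (Finset.mem_compl.1 h') he))
  · rw [ev_act, ← MulAut.mul_apply, inv_mul_cancel, MulAut.one_apply, hk]

theorem Pt_good (hB : Bs f I gb p In l τ x0) {Q : Finset (Fin n)} (hQ : Q ⊆ I)
    (hc : Q.card = l) {θ : MulAut (FreeGroup (Fin n))} (hg : θ ∈ Gam gb) {c b : Fin n}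
    (hθ : θ ∈ Mv c) (hp : ∀ e ∈ I, e ≠ b → e ≠ c → Pres e θ) (hb : b ∉ Q) (hcQ : c ∉ Q) {z : E}
    (hz : Pt f I gb p In τ x0 Q z) : Pt f I gb p In τ x0 Q (θ • z) := by
  classical
  obtain ⟨ψ, hψ, θ0, hθ0, ψ', hψ', hze, hpψ, hf, hInz, hGz⟩ := hz
  have hA := hB.fb
  have hpQ : ∀ e ∈ Q, Pres e θ := fun e he =>
    hp e (hQ he) (fun h => hb (h ▸ he)) (fun h => hcQ (h ▸ he))
  have hfψ : ∀ a, f (p (ψ • x0) a) = gb a := by
    intro a
    rw [hpψ]
    by_cases ha : a ∈ Q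
    · rw [upd_of_mem ha, hB.tau, hA.one a (hQ ha)]
    · rw [upd_of_notMem ha]
      exact (hA.fb x0 hB.in0).1 a
  have hInQ : In (ψ • x0) := (in_of_act hA hB.in0 hfψ).2
  have hIny : In (θ0 • ψ • x0) := (in_of_act hA hInQ hf).2
  have hFQ : Full f Q (p (ψ • x0)) := by
    refine Full_congr (fun a ha => ?_) (hB.full Q hc)
    rw [hpψ, upd_of_mem ha]
  have hFy : Full f Q (p (θ0 • ψ • x0)) := by
    refine Full_congr (fun a ha => ?_) hFQ
    rw [hA.ps θ0 (ψ • x0), MQ_fix hQ hθ0 _ ha]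
  obtain ⟨θ'', hθ'', heq⟩ : ∃ θ'' ∈ MQ I Q, θ • θ0 • ψ • x0 = θ'' • θ0 • ψ • x0 := by
    by_cases hcI : c ∈ I
    · refine ⟨θ, ?_, rfl⟩
      exact (le_sup_left : MvS (I \ Q) ≤ MQ I Q)
        (Mv_le_MvS (Finset.mem_sdiff.2 ⟨hcI, hcQ⟩) hθ)
    · have hcard : 3 ≤ (I \ Q).card := by
        rw [Finset.card_sdiff_of_subset hQ, hc]
        have h1 := hB.lg.1
        have h2 := hB.lg.2
        omega
      obtain ⟨e, he⟩ : ((I \ Q).erase b).Nonempty := by
        rw [← Finset.card_pos]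
        have := Finset.pred_card_le_card_erase (s := I \ Q) (a := b)
        omega
      rw [Finset.mem_erase, Finset.mem_sdiff] at he
      obtain ⟨i, hi⟩ : ((I \ Q).erase e).Nonempty := by
        rw [← Finset.card_pos]
        have := Finset.pred_card_le_card_erase (s := I \ Q) (a := e)
        omega
      rw [Finset.mem_erase, Finset.mem_sdiff] at hi
      exact MQ_good hA hQ hIny hFy hcI hθ hg he.2.1 he.2.2 hi.2.1 hi.2.2 hi.1
        (hp e he.2.1 he.1 (fun h => hcI (h ▸ he.2.1)))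
  refine ⟨ψ, hψ, θ'' * θ0, (MQ I Q).mul_mem hθ'' hθ0, θ * ψ' * θ⁻¹,
    NConj.conj_MvS hpQ hψ', ?_, hpψ, ?_, hA.inn θ hg z hInz, ?_⟩
  · rw [hze, mul_smul θ'' θ0, ← heq, mul_smul, mul_smul, inv_smul_smul]
  · intro a
    rw [mul_smul, ← heq]
    exact (hA.fb _ (hA.inn θ hg _ hIny)).1 a
  · rw [hA.ps]
    exact Gen_presS hpQ hGz

end Sol

end RED
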