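import Pool.Agent.RED5.SecC5
import Pool.Agent.RED5.SecD5
import Pool.Agent.RED5.NS5
import Pool.Agent.RED4.NSe

/-!
# The induction step for a kernel with short generating sets
-/

set_option autoImplicit false

namespace RED

open AFn IAQ

namespace Sol

variable {n : ℕ} {G K : Type*} [Group G] [Group K]

theorem tau_exists5 [Finite G] {f : G →* K} {l : ℕ} (hk : KB f l) :
    ∃ τ : Finset (Fin n) → Fin n → G, (∀ Q a, f (τ Q a) = 1) ∧
      ∀ Q, Q.card = l → Full f Q (τ Q) := by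
  classical
  have hfin : {x : G | f x = 1}.Finite := Set.toFinite _
  obtain ⟨M, h1, h2, h3⟩ := hk hfin.toFinset (fun x hx => (Set.Finite.mem_toFinset hfin).1 hx)
  have hM : ∀ y : M, f y.1 = 1 := fun y => (Set.Finite.mem_toFinset hfin).1 (h1 y.2)
  have h : ∀ Q : Finset (Fin n), ∃ t : Fin n → G, (∀ a, f (t a) = 1) ∧
      (Q.card = l → Full f Q t) := by
    intro Q
    by_cases hQ : Q.card = l
    · obtain ⟨j⟩ : Nonempty (M ↪ Q) := by
        rw [Function.Embedding.nonempty_iff_card_le, Fintype.card_coe, Fintype.card_coe, hQ]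
        exact h2
      refine ⟨fun x => if h : ∃ y : M, ((j y : Q) : Fin n) = x then h.choose.1 else 1, ?_, ?_⟩
      · intro a
        by_cases ha : ∃ y : M, ((j y : Q) : Fin n) = a
        · simp only [dif_pos ha]
          exact hM _
        · simp only [dif_neg ha]
          exact map_one f
      · intro _ x hx
        have h4 := h3 x ((Set.Finite.mem_toFinset hfin).2 hx)
        refine Subgroup.closure_mono ?_ h4
        intro y hy
        have hy' : y ∈ M := Finset.mem_coe.1 hy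
        refine ⟨((j ⟨y, hy'⟩ : Q) : Fin n), Finset.mem_coe.2 (j ⟨y, hy'⟩).2, ?_⟩
        have hex : ∃ y' : M, ((j y' : Q) : Fin n) = ((j ⟨y, hy'⟩ : Q) : Fin n) :=
          ⟨⟨y, hy'⟩, rfl⟩
        have h6 : hex.choose = ⟨y, hy'⟩ := j.injective (Subtype.ext hex.choose_spec)
        simp only [dif_pos hex, h6]
    · exact ⟨1, fun a => map_one f, fun h => absurd h hQ⟩
  choose τ hτ1 hτ2 using h
  exact ⟨τ, hτ1, hτ2⟩

private theorem step5_ev_comp (f : G →* K) (g : Fin n → G) (w : FreeGroup (Fin n)) :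
    ev (fun x => f (g x)) w = f (ev g w) := by
  have h : ev (fun x => f (g x)) = f.comp (ev g) := by
    ext x
    rw [ev_of, MonoidHom.comp_apply, ev_of]
  exact DFunLike.congr_fun h w

theorem step5 [Finite G] {f : G →* K} (hsurj : Function.Surjective f) {l : ℕ} (hk : KB f l)
    {I : Finset (Fin n)} (hI : Lg I l) {g : Fin n → G}
    (h1 : ∀ i ∈ I, g i = 1) (hg : Gen g Iᶜ)
    (ih : Gam (fun x => f (g x)) ≤ NN (fun x => f (g x))) : Gam g ≤ NN g := by
  classical
  have hIne : I.Nonempty := Finset.card_pos.1 (by have := hI.1; omega)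
  have h1b : ∀ i ∈ I, (fun x => f (g x)) i = 1 := by
    intro i hi
    show f (g i) = 1
    rw [h1 i hi, map_one]
  have hgb : Gen (fun x => f (g x)) Iᶜ := by
    intro k
    obtain ⟨γ, rfl⟩ := hsurj k
    obtain ⟨w, hw, hwγ⟩ := hg γ
    exact ⟨w, hw, by rw [step5_ev_comp, hwγ]⟩
  have hFg : Fb f (fun x => f (g x)) g :=
    ⟨fun x => rfl, Gen_mono (Finset.subset_univ _) hg⟩
  have hA : Gam (fun x => f (g x)) ≤ Subgroup.closure {s | Good I (fun x => f (g x)) s} :=
    ih.trans (NN_le_good hIne h1b)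
  have hGG : Gam g ≤ Gam (fun x => f (g x)) := by
    intro φ hφ w
    rw [step5_ev_comp, step5_ev_comp, hφ w]
  have hH : HB f I (fun x => f (g x)) := kb_HB hk hI h1b
  obtain ⟨p, In, hFB, hIn, hp⟩ := FB_quot hH hIne h1b hgb hFg hA
  obtain ⟨τ, hτ1, hτ2⟩ := tau_exists5 (n := n) hk
  obtain ⟨x0, hx0⟩ : ∃ x0 : MulAut (FreeGroup (Fin n)) ⧸ NS g,
      x0 = ((1 : MulAut (FreeGroup (Fin n))) : MulAut (FreeGroup (Fin n)) ⧸ NS g) := ⟨_, rfl⟩
  rw [← hx0] at hIn hp
  have hB : Bs f I (fun x => f (g x)) p In l τ x0 :=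
    { fb := hFB
      kb := hk
      lg := hI
      in0 := hIn
      one0 := by intro i hi; rw [hp]; exact h1 i hi
      tau := hτ1
      full := hτ2 }
  -- the points reached by paths
  obtain ⟨SS, hSS⟩ : ∃ SS : (MulAut (FreeGroup (Fin n)) ⧸ NS g) → Prop, SS = fun z =>
      ∃ Q : Finset (Fin n), Q ⊆ I ∧ Q.card = l ∧ Pt f I (fun x => f (g x)) p In τ x0 Q z :=
    ⟨_, rfl⟩
  have hS0 : SS x0 := by
    rw [hSS]
    obtain ⟨Q, hQ, hc⟩ := Finset.exists_subset_card_eq (s := I) (n := l)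
      (by have := hI.2; omega)
    have hG0 : Gen (p x0) Qᶜ := by
      rw [hp]
      exact Gen_mono (Finset.compl_subset_compl.2 hQ) hg
    obtain ⟨ψ, hψ, hψa⟩ := exists_upd hG0 (τ Q)
    have hpψ : p (ψ • x0) = upd (p x0) Q (τ Q) := by rw [hFB.ps, hψa]
    refine ⟨Q, hQ, hc, ψ, hψ, 1, Subgroup.one_mem _, ψ⁻¹, Subgroup.inv_mem _ hψ, ?_, hpψ, ?_,
      hIn, hG0⟩
    · rw [one_smul, inv_smul_smul]
    · intro a
      rw [one_smul, hpψ]
      by_cases ha : a ∈ Q
      · rw [upd_of_mem ha, hτ1]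
        exact (h1b a (hQ ha)).symm
      · rw [upd_of_notMem ha, hp]
  have hgood : ∀ θ, Good I (fun x => f (g x)) θ → ∀ z, SS z → SS (θ • z) := by
    rintro θ ⟨hθG, c, b, hθc, hθp⟩ z hz
    rw [hSS] at hz ⊢
    obtain ⟨Q, hQ, hc, hPt⟩ := hz
    have hzin : In z := by
      obtain ⟨_, _, _, _, _, _, _, _, _, h, _⟩ := hPt
      exact h
    obtain ⟨Q', hQ', hc', hbQ, hcQ, hG⟩ := kb_pick hk hI h1b (hFB.fb z hzin) b c
    have hPt' := Pt_indep hB hQ hQ' hc hc' hPt hG
    exact ⟨Q', hQ', hc', Pt_good hB hQ' hc' hθG hθc hθp hbQ hcQ hPt'⟩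
  have hgood_inv : ∀ θ, Good I (fun x => f (g x)) θ → Good I (fun x => f (g x)) θ⁻¹ := by
    rintro θ ⟨hθG, c, b, hθc, hθp⟩
    exact ⟨Subgroup.inv_mem _ hθG, c, b, Subgroup.inv_mem _ hθc,
      fun e he h2 h3 => Pres_inv (hθp e he h2 h3)⟩
  have key : ∀ θ ∈ Subgroup.closure {s | Good I (fun x => f (g x)) s},
      (∀ z, SS z → SS (θ • z)) ∧ ∀ z, SS z → SS (θ⁻¹ • z) := by
    intro θ hθ
    induction hθ using Subgroup.closure_induction with
    | mem x hx => exact ⟨hgood x hx, hgood _ (hgood_inv x hx)⟩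
    | one =>
      refine ⟨fun z hz => ?_, fun z hz => ?_⟩
      · rwa [one_smul]
      · rwa [inv_one, one_smul]
    | mul a b _ _ iha ihb =>
      refine ⟨fun z hz => ?_, fun z hz => ?_⟩
      · rw [mul_smul]
        exact iha.1 _ (ihb.1 _ hz)
      · rw [mul_inv_rev, mul_smul]
        exact ihb.2 _ (iha.2 _ hz)
    | inv a _ iha =>
      refine ⟨iha.2, fun z hz => ?_⟩
      rw [inv_inv]
      exact iha.1 z hz
  have huniq : ∀ z z', SS z → SS z' → p z = p z' → z = z' := by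
    intro z z' hz hz' h
    rw [hSS] at hz hz'
    obtain ⟨Q, hQ, hc, hPt⟩ := hz
    obtain ⟨Q', hQ', hc', hPt'⟩ := hz'
    have hG : Gen (p z) Qᶜ := by
      obtain ⟨_, _, _, _, _, _, _, _, _, _, h⟩ := hPt
      exact h
    rw [h] at hG
    have hPt'' := Pt_indep hB hQ' hQ hc' hc hPt' hG
    exact Pt_uniq hB hQ hc hPt hPt'' h
  intro θ hθ
  have h3 : θ • x0 = x0 := by
    refine huniq _ _ ((key θ (hA (hGG hθ))).1 x0 hS0) hS0 ?_
    rw [hFB.ps, hp, mem_Gam_iff.1 hθ]
  rw [hx0, MulAction.Quotient.smul_coe, smul_eq_mul, mul_one] at h3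
  have h4 := QuotientGroup.eq.1 h3
  rw [mul_one] at h4
  have h5 : θ ∈ NS g := by
    have := Subgroup.inv_mem _ h4
    rwa [inv_inv] at this
  exact NS_std hIne hg h1 h5

end Sol

end RED
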