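import Pool.Agent.RED5.Ga5
import Pool.Agent.RED5.KBb
import Pool.Agent.RED5.MQc
import Pool.Agent.RED5.SecA5
import Pool.Agent.RED5.Step5

/-!
# Bringing a generating tuple to standard form
-/

set_option autoImplicit false

namespace RED

open AFn IAQ

namespace Sol

variable {n : ℕ} {G K : Type*} [Group G] [Group K]

theorem std5 [Finite G] {f : G →* K} (hsurj : Function.Surjective f) {l : ℕ} (hk : KB f l)
    {I : Finset (Fin n)} (hI : Lg I l) (hr : RB G Iᶜ.card) {h : Fin n → G}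
    (hh : Gen h Finset.univ) (h1 : ∀ i ∈ I, f (h i) = 1) (hgb : Gen (fun x => f (h x)) Iᶜ) :
    ∃ φ : MulAut (FreeGroup (Fin n)), Gen (act φ h) Iᶜ ∧ ∀ i ∈ I, act φ h i = 1 := by
  classical
  have hFb : Fb f (fun x => f (h x)) h := ⟨fun _ => rfl, hh⟩
  obtain ⟨i0, -⟩ : I.Nonempty := Finset.card_pos.1 (lt_of_lt_of_le (by norm_num) hI.1)
  obtain ⟨Q, hQI, hQl, -, -, hQG⟩ := kb_pick hk hI h1 hFb i0 i0
  obtain ⟨τ, hτ1, hτ2⟩ := tau_exists5 (n := n) hk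
  obtain ⟨ψ1, -, hψ1⟩ := exists_upd hQG (τ Q)
  have hFull : Full f Q (upd h Q (τ Q)) := by
    intro x hx
    have h2 : (upd h Q (τ Q)) '' (Q : Set (Fin n)) = (τ Q) '' (Q : Set (Fin n)) :=
      Set.image_congr fun a ha => upd_of_mem (by simpa using ha)
    rw [h2]
    exact hτ2 Q hQl x hx
  have hfk : ∀ x, f (upd h Q (τ Q) x) = f (h x) := by
    intro x
    by_cases hx : x ∈ Q
    · rw [upd_of_mem hx, hτ1, h1 x (hQI hx)]
    · rw [upd_of_notMem hx]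
  obtain ⟨z, hz1, hz2⟩ := gaschutz5 hsurj hgb hr
  have hfk' : ∀ x, f (upd (upd h Q (τ Q)) Iᶜ z x) = f (h x) := by
    intro x
    by_cases hx : x ∈ Iᶜ
    · rw [upd_of_mem hx, hz1 x hx]
    · rw [upd_of_notMem hx, hfk]
  obtain ⟨θ, -, hθ⟩ := MQ_exists hQI h1 hgb hFull hfk hfk' (fun i hi =>
    upd_of_notMem (by simpa using hQI hi))
  have hG' : Gen (upd (upd h Q (τ Q)) Iᶜ z) Iᶜ :=
    Gen_congr (fun x hx => (upd_of_mem hx).symm) hz2
  obtain ⟨ψ2, -, hψ2⟩ := exists_upd hG' (fun _ => (1 : G))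
  have hact : act (ψ2 * (θ * ψ1)) h = upd (upd (upd h Q (τ Q)) Iᶜ z) I (fun _ => (1 : G)) := by
    rw [act_mul, act_mul, hψ1, hθ, hψ2]
  refine ⟨ψ2 * (θ * ψ1), ?_, fun i hi => ?_⟩
  · rw [hact]
    exact Gen_congr (fun x hx => (upd_of_notMem (Finset.mem_compl.1 hx)).symm) hG'
  · rw [hact, upd_of_mem hi]

end Sol

end RED
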